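import Pool.Agent.Helper14K9.ZT.Tow

/-!
# Fibrations over sets of rational points with semialgebraic closure (helper14)
-/

set_option autoImplicit false

namespace Pool.Agent.Helper14K9.ZT

open Matrix Topology Filter MvPolynomial Pool.Agent.TH729.SQ Pool.Agent.H581R2 Pool.Agent.R847.QB

variable {n m k : ℕ}

/-- the minor of the Jacobian matrix with respect to the variables of the fibre -/
noncomputable def minor (f : Fin k → MvPolynomial (Fin (n + m)) ℚ) (e : Fin k → Fin m) :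
    MvPolynomial (Fin (n + m)) ℚ :=
  (Matrix.of fun i j => pderiv (Fin.natAdd n (e j)) (f i)).det

/-- the deformation of solutions -/
theorem ift (f : Fin k → MvPolynomial (Fin (n + m)) ℚ) (x : Fin (n + m) → ℝ)
    (hx : ∀ i, (aeval x (f i) : ℝ) = 0) (e : Fin k → Fin m)
    (he : (aeval x (minor f e) : ℝ) ≠ 0) {V : Set (Fin (n + m) → ℝ)} (hV : V ∈ 𝓝 x) :
    ∀ᶠ w in 𝓝 (bs x : Fin n → ℝ), ∃ y ∈ V, bs y = w ∧ ∀ i, (aeval y (f i) : ℝ) = 0 := by
  classical
  set D : Fin k → (Fin (n + m) → ℝ) →L[ℝ] ℝ := fun i =>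
    ∑ j, (aeval x (pderiv j (f i)) : ℝ) • (ContinuousLinearMap.proj j : (Fin (n + m) → ℝ) →L[ℝ] ℝ)
    with hD
  set B : (Fin (n + m) → ℝ) →L[ℝ] (Fin n → ℝ) :=
    ContinuousLinearMap.pi fun i => ContinuousLinearMap.proj (Fin.castAdd m i) with hB
  have hΦ : HasStrictFDerivAt (fun y : Fin (n + m) → ℝ =>
      ((B y : Fin n → ℝ), fun i => (aeval y (f i) : ℝ))) (B.prod (ContinuousLinearMap.pi D)) x := by
    refine HasStrictFDerivAt.prodMk B.hasStrictFDerivAt ?_
    exact hasStrictFDerivAt_pi.2 fun i => strict (f i) x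
  have hJ : (Matrix.of fun i j => (aeval x (pderiv (Fin.natAdd n (e j)) (f i)) : ℝ) :
      Matrix (Fin k) (Fin k) ℝ).det ≠ 0 := by
    intro h0
    apply he
    have h1 := AlgHom.map_det (aeval x : MvPolynomial (Fin (n + m)) ℚ →ₐ[ℚ] ℝ)
      (Matrix.of fun i j => pderiv (Fin.natAdd n (e j)) (f i))
    rw [minor, h1, ← h0]
    congr 1
  have hsurj : (B.prod (ContinuousLinearMap.pi D)).range = ⊤ := by
    rw [LinearMap.range_eq_top]
    rintro ⟨a, b⟩
    set J : Matrix (Fin k) (Fin k) ℝ :=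
      Matrix.of fun i j => (aeval x (pderiv (Fin.natAdd n (e j)) (f i)) : ℝ) with hJd
    set v0 : Fin (n + m) → ℝ := Fin.append a 0 with hv0
    set c : Fin k → ℝ := J⁻¹ *ᵥ (fun i => b i - D i v0) with hc
    have hJc : J *ᵥ c = fun i => b i - D i v0 := by
      rw [hc, mulVec_mulVec, Matrix.mul_nonsing_inv _ (isUnit_iff_ne_zero.2 hJ), one_mulVec]
    refine ⟨v0 + ∑ j, c j • (Pi.single (Fin.natAdd n (e j)) (1 : ℝ) : Fin (n + m) → ℝ), ?_⟩
    have hDs : ∀ i j, D i (Pi.single (Fin.natAdd n (e j)) (1 : ℝ)) = J i j := by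
      intro i j
      simp only [hD, ContinuousLinearMap.sum_apply, ContinuousLinearMap.smul_apply,
        ContinuousLinearMap.proj_apply, smul_eq_mul, Pi.single_apply, mul_ite, mul_one, mul_zero,
        Finset.sum_ite_eq', Finset.mem_univ, if_true, hJd, Matrix.of_apply]
    refine Prod.ext ?_ ?_
    · funext i
      show (v0 + ∑ j, c j • (Pi.single (Fin.natAdd n (e j)) (1 : ℝ) : Fin (n + m) → ℝ))
        (Fin.castAdd m i) = a i
      rw [Pi.add_apply, Finset.sum_apply]
      have h1 : ∀ j, (c j • Pi.single (Fin.natAdd n (e j)) (1 : ℝ) : Fin (n + m) → ℝ)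
          (Fin.castAdd m i) = 0 := by
        intro j
        have h2 : Fin.castAdd m i ≠ Fin.natAdd n (e j) := by
          intro h
          have := congrArg Fin.val h
          simp at this
          omega
        simp [Pi.single_apply, h2]
      simp [h1, hv0]
    · funext i
      show D i (v0 + ∑ j, c j • (Pi.single (Fin.natAdd n (e j)) (1 : ℝ) : Fin (n + m) → ℝ)) = b i
      rw [map_add, map_sum]
      simp only [map_smul, hDs, smul_eq_mul]
      have h1 := congrFun hJc i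
      simp only [mulVec, dotProduct] at h1
      have h2 : ∑ j, c j * J i j = ∑ j, J i j * c j := Finset.sum_congr rfl fun j _ => mul_comm _ _
      rw [h2, h1]
      ring
  have hmap := hΦ.map_nhds_eq_of_surj hsurj
  have h1 : (fun y : Fin (n + m) → ℝ => ((B y : Fin n → ℝ), fun i => (aeval y (f i) : ℝ))) '' V ∈
      𝓝 ((B x : Fin n → ℝ), fun i => (aeval x (f i) : ℝ)) := by
    rw [← hmap]
    exact image_mem_map hV
  have hx0 : (fun i => (aeval x (f i) : ℝ)) = 0 := funext hx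
  rw [hx0] at h1
  have hc : ContinuousAt (fun w : Fin n → ℝ => (w, (0 : Fin k → ℝ))) (bs x) := by fun_prop
  have h2 := hc h1
  filter_upwards [h2] with w hw
  obtain ⟨y, hy, hyw⟩ := hw
  have h3 := congrArg Prod.fst hyw
  have h4 := congrArg Prod.snd hyw
  exact ⟨y, hy, h3, fun i => congrFun h4 i⟩

/-- the nondegenerate rational points of a family over `S` in an open set -/
def fam (S : Set (Fin n → ℚ)) (f : Fin k → MvPolynomial (Fin (n + m)) ℚ)
    (G : Finset (MvPolynomial (Fin (n + m)) ℚ)) : Set (Fin (n + m) → ℚ) :=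
  {x | bs x ∈ S ∧ (∀ i, eval x (f i) = 0) ∧ (∃ e : Fin k → Fin m, eval x (minor f e) ≠ 0) ∧
    ∀ g ∈ G, 0 < eval x g}

/-- **fibrations with dense fibres** -/
theorem Tm.fam {S : Set (Fin n → ℚ)} (hS : Tm S) (f : Fin k → MvPolynomial (Fin (n + m)) ℚ)
    (G : Finset (MvPolynomial (Fin (n + m)) ℚ))
    (H : ∀ w ∈ S, ∀ x : Fin (n + m) → ℝ, bs x = rv w → (∀ i, (aeval x (f i) : ℝ) = 0) →
      (∃ e : Fin k → Fin m, (aeval x (minor f e) : ℝ) ≠ 0) → (∀ g ∈ G, (0 : ℝ) < aeval x g) →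
      x ∈ closure {u | ∃ y : Fin (n + m) → ℚ, bs y = w ∧ (∀ i, eval y (f i) = 0) ∧ u = rv y}) :
    Tm (fam S f G) := by
  refine Tm.sandwich (E := {x : Fin (n + m) → ℝ | bs x ∈ closure (rl S) ∧
    (∀ i, (aeval x (f i) : ℝ) = 0) ∧ (∃ e : Fin k → Fin m, (aeval x (minor f e) : ℝ) ≠ 0) ∧
    ∀ g ∈ G, (0 : ℝ) < aeval x g}) ?_ ?_ ?_
  · refine SAP.and ?_ (SAP.and ?_ (SAP.and ?_ ?_))
    · exact SAP.preimage (p := fun v => v ∈ closure (rl S)) hS (fun i => PF.coord _)
    · exact SAP.forall_fin fun i => SAP.eq_zero (PF.aeval _)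
    · exact SAP.exists_fin fun e => (SAP.eq_zero (PF.aeval _)).not
    · exact SAP.forall_mem G fun g _ => SAP.pos (PF.aeval g)
  · rintro _ ⟨x, ⟨h1, h2, ⟨e, h3⟩, h4⟩, rfl⟩
    have hc : ∀ p : MvPolynomial (Fin (n + m)) ℚ,
        (aeval (rv x) p : ℝ) = ((eval x p : ℚ) : ℝ) := fun p => aeval_cast x p
    refine ⟨subset_closure ⟨bs x, h1, rfl⟩, fun i => ?_, ⟨e, ?_⟩, fun g hg => ?_⟩
    · show (aeval (rv x) (f i) : ℝ) = 0
      rw [hc, h2 i, Rat.cast_zero]
    · show (aeval (rv x) (minor f e) : ℝ) ≠ 0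
      rw [hc]
      exact_mod_cast h3
    · show (0 : ℝ) < (aeval (rv x) g : ℝ)
      rw [hc]
      exact_mod_cast h4 g hg
  · rintro x ⟨h1, h2, ⟨e, h3⟩, h4⟩
    rw [Metric.mem_closure_iff]
    intro ε hε
    set V : Set (Fin (n + m) → ℝ) := Metric.ball x ε ∩ ({y | (aeval y (minor f e) : ℝ) ≠ 0} ∩
      ⋂ g ∈ G, {y | (0 : ℝ) < aeval y g}) with hV
    have hVo : IsOpen V := by
      refine Metric.isOpen_ball.inter ((isOpen_ne_fun (aeval_continuous _) continuous_const).inter ?_)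
      exact isOpen_biInter_finset fun g _ => isOpen_lt continuous_const (aeval_continuous g)
    have hxV : x ∈ V := by
      refine ⟨Metric.mem_ball_self hε, h3, ?_⟩
      simp only [Set.mem_iInter]
      exact fun g hg => h4 g hg
    have h5 := ift f x h2 e h3 (hVo.mem_nhds hxV)
    rw [mem_closure_iff_frequently] at h1
    obtain ⟨_, ⟨w, hw, rfl⟩, y, hyV, hyw, hy0⟩ := (h1.and_eventually h5).exists
    obtain ⟨hy1, hy2, hy3⟩ := hyV
    simp only [Set.mem_iInter] at hy3
    have h6 := H w hw y hyw hy0 ⟨e, hy2⟩ hy3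
    rw [mem_closure_iff] at h6
    obtain ⟨_, ⟨hz1, hz2, hz3⟩, z, hzw, hz0, rfl⟩ := h6 V hVo ⟨hy1, hy2, by simpa using hy3⟩
    simp only [Set.mem_iInter] at hz3
    have hc : ∀ p : MvPolynomial (Fin (n + m)) ℚ,
        (aeval (rv z) p : ℝ) = ((eval z p : ℚ) : ℝ) := fun p => aeval_cast z p
    refine ⟨rv z, ⟨z, ⟨?_, hz0, ⟨e, ?_⟩, fun g hg => ?_⟩, rfl⟩, ?_⟩
    · rw [hzw]; exact hw
    · have h7 : (aeval (rv z) (minor f e) : ℝ) ≠ 0 := hz2
      rw [hc] at h7
      exact_mod_cast h7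
    · have h7 : (0 : ℝ) < aeval (rv z) g := hz3 g hg
      rw [hc] at h7
      exact_mod_cast h7
    · rw [dist_comm]
      exact hz1

/-! ### Quadric bundles -/

/-- deformation of a real solution which is not a vertex -/
theorem lift' (M : Matrix (Fin (m + 1)) (Fin (m + 1)) ℝ) (hM : M.IsSymm)
    (v : Fin (m + 1) → ℝ) (hv0 : v 0 = 1) (hv : v ⬝ᵥ M *ᵥ v = 0) (hMv : M *ᵥ v ≠ 0) {ε : ℝ}
    (hε : 0 < ε) :
    ∀ᶠ M' in 𝓝 M,
      ∃ v' : Fin (m + 1) → ℝ, v' 0 = 1 ∧ v' ⬝ᵥ M' *ᵥ v' = 0 ∧ ∀ i, |v' i - v i| < ε := by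
  have h1 : ∃ i : Fin m, (M *ᵥ v) i.succ ≠ 0 := by
    by_contra hcon
    push Not at hcon
    apply hMv
    funext k
    refine Fin.cases ?_ (fun i => ?_) k
    · have h2 := hv
      simp only [dotProduct] at h2
      rw [Fin.sum_univ_succ, hv0, one_mul] at h2
      simp only [hcon, mul_zero, Finset.sum_const_zero, add_zero] at h2
      exact h2
    · exact hcon i
  obtain ⟨i, hi⟩ := h1
  set e : Fin (m + 1) → ℝ := Pi.single i.succ 1 with he
  set φ : Matrix (Fin (m + 1)) (Fin (m + 1)) ℝ → ℝ → ℝ := fun M' s =>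
    (v + s • e) ⬝ᵥ M' *ᵥ (v + s • e) with hφ
  have hφM : ∀ s, φ M s = 2 * s * (M *ᵥ v) i.succ + s ^ 2 * M i.succ i.succ := by
    intro s
    have e1 : e ⬝ᵥ M *ᵥ v = (M *ᵥ v) i.succ := by rw [he, single_dotProduct, one_mul]
    have e2 : e ⬝ᵥ M *ᵥ e = M i.succ i.succ := by
      rw [he, single_dotProduct, one_mul, mulVec_single_one]
      rfl
    simp only [hφ, mulVec_add, mulVec_smul, dotProduct_add, add_dotProduct, smul_dotProduct,
      dotProduct_smul, smul_eq_mul, hv, symm_dot hM v e, e1, e2]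
    ring
  have hφc : ∀ s, Continuous fun M' : Matrix (Fin (m + 1)) (Fin (m + 1)) ℝ => φ M' s := by
    intro s
    simp only [hφ, mulVec, dotProduct]
    refine continuous_finsetSum _ fun a _ => continuous_const.mul
      (continuous_finsetSum _ fun b _ => ?_)
    exact (Continuous.matrix_elem continuous_id a b).mul continuous_const
  have hφs : ∀ M' : Matrix (Fin (m + 1)) (Fin (m + 1)) ℝ, Continuous fun s => φ M' s := by
    intro M'
    simp only [hφ, mulVec, dotProduct, Pi.add_apply, Pi.smul_apply, smul_eq_mul]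
    fun_prop
  set c := (M *ᵥ v) i.succ with hc
  set a := M i.succ i.succ with ha
  set s0 : ℝ := min (ε / 2) (|c| / (|a| + 1)) with hs0
  have hs0p : 0 < s0 := lt_min (by linarith) (div_pos (abs_pos.2 hi) (by positivity))
  have hs0e : s0 < ε := (min_le_left _ _).trans_lt (by linarith)
  have hs0a : s0 * |a| < |c| := by
    have h2 : s0 ≤ |c| / (|a| + 1) := min_le_right _ _
    rw [le_div_iff₀ (by positivity)] at h2
    nlinarith [abs_nonneg a]
  have key : ∀ M' : Matrix (Fin (m + 1)) (Fin (m + 1)) ℝ,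
      (φ M' s0 < 0 ∧ 0 < φ M' (-s0)) ∨ (0 < φ M' s0 ∧ φ M' (-s0) < 0) →
      ∃ v' : Fin (m + 1) → ℝ, v' 0 = 1 ∧ v' ⬝ᵥ M' *ᵥ v' = 0 ∧ ∀ i, |v' i - v i| < ε := by
    intro M' h
    have hex : ∃ s ∈ Set.Icc (-s0) s0, φ M' s = 0 := by
      rcases h with ⟨h2, h3⟩ | ⟨h2, h3⟩
      · exact intermediate_value_Icc' (by linarith) (hφs M').continuousOn ⟨h2.le, h3.le⟩
      · exact intermediate_value_Icc (by linarith) (hφs M').continuousOn ⟨h3.le, h2.le⟩
    obtain ⟨s, hs, hs2⟩ := hex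
    refine ⟨v + s • e, ?_, hs2, fun k => ?_⟩
    · simp [he, hv0]
    · have h4 : (v + s • e) k - v k = s * e k := by simp
      rw [h4, abs_mul]
      have h5 : |e k| ≤ 1 := by
        rw [he]
        rcases eq_or_ne k i.succ with h | h
        · subst h; simp
        · simp [h]
      have h6 : |s| ≤ s0 := abs_le.2 hs
      calc |s| * |e k| ≤ s0 * 1 := mul_le_mul h6 h5 (abs_nonneg _) hs0p.le
        _ < ε := by linarith
  have h7 : (φ M s0 < 0 ∧ 0 < φ M (-s0)) ∨ (0 < φ M s0 ∧ φ M (-s0) < 0) := by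
    rw [hφM, hφM]
    have h8 := abs_le.1 (le_refl |a|)
    rcases lt_or_gt_of_ne hi with h | h
    · left
      rw [abs_of_neg h] at hs0a
      constructor <;> nlinarith [mul_nonneg hs0p.le hs0p.le, mul_le_mul_of_nonneg_left h8.1 (mul_nonneg hs0p.le hs0p.le), mul_le_mul_of_nonneg_left h8.2 (mul_nonneg hs0p.le hs0p.le)]
    · right
      rw [abs_of_pos h] at hs0a
      constructor <;> nlinarith [mul_nonneg hs0p.le hs0p.le, mul_le_mul_of_nonneg_left h8.1 (mul_nonneg hs0p.le hs0p.le), mul_le_mul_of_nonneg_left h8.2 (mul_nonneg hs0p.le hs0p.le)]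
  rcases h7 with ⟨h8, h9⟩ | ⟨h8, h9⟩
  · have k1 := (hφc s0).continuousAt.eventually_lt_const h8
    have k2 := (hφc (-s0)).continuousAt.eventually_const_lt h9
    filter_upwards [k1, k2] with M' g1 g2
    exact key M' (Or.inl ⟨g1, g2⟩)
  · have k1 := (hφc s0).continuousAt.eventually_const_lt h8
    have k2 := (hφc (-s0)).continuousAt.eventually_lt_const h9
    filter_upwards [k1, k2] with M' g1 g2
    exact key M' (Or.inr ⟨g1, g2⟩)

/-- the rank is lower semicontinuous -/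
lemma rank_open (M : Matrix (Fin (m + 1)) (Fin (m + 1)) ℝ) {r : ℕ} (hr : r ≤ M.rank) :
    ∀ᶠ M' in 𝓝 M, r ≤ M'.rank := by
  obtain ⟨C, D, hCD⟩ := (rank_ge_iff M).1 hr
  have hc : Continuous fun M' : Matrix (Fin (m + 1)) (Fin (m + 1)) ℝ => (C * M' * D).det :=
    ((continuous_const.matrix_mul continuous_id).matrix_mul continuous_const).matrix_det
  have h1 : ∀ᶠ M' in 𝓝 M, (C * M' * D).det ≠ 0 := by
    refine hc.continuousAt.eventually_ne ?_
    rw [hCD]
    simp
  filter_upwards [h1] with M' hM'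
  have h8 := rank_of_det_ne_zero (A := C * M' * D) hM'
  rw [Fintype.card_fin] at h8
  calc r = (C * M' * D).rank := h8.symm
    _ ≤ M'.rank := (rank_mul_le_left _ _).trans (rank_mul_le_right _ _)

lemma sap_rank_base (A : PM n m) (r : ℕ) : SAP fun x : Fin n → ℝ => r ≤ (atr A x).rank := by
  have h := SAP.preimage (sap_rank A r) (φ := fun x : Fin n → ℝ => (Fin.append x 0 : Fin (n + m) → ℝ))
    (by
      intro k
      refine Fin.addCases (fun i => ?_) (fun j => ?_) k
      · simp only [Fin.append_left]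
        exact PF.coord i
      · simp only [Fin.append_right, Pi.zero_apply]
        exact PF.zero)
  refine SAP.congr h fun x => ?_
  have e : bs (Fin.append x (0 : Fin m → ℝ)) = x := by
    funext i
    simp [bs]
  rw [e]

lemma isOpen_rank (A : PM n m) (r : ℕ) : IsOpen {x : Fin n → ℝ | r ≤ (atr A x).rank} := by
  rw [isOpen_iff_mem_nhds]
  intro x hx
  exact (atr_continuous A).continuousAt.eventually (rank_open (atr A x) hx)

/-- **quadric bundles, points which are not vertices** -/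
theorem Tm.quad {S : Set (Fin n → ℚ)} (hS : Tm S) {A : PM n m} (hA : A.IsSymm) :
    Tm {x : Fin (n + m) → ℚ | bs x ∈ S ∧ 5 ≤ (atq A (bs x)).rank ∧ atq A (bs x) *ᵥ fb x ≠ 0 ∧
      fb x ⬝ᵥ atq A (bs x) *ᵥ fb x = 0} := by
  refine Tm.sandwich (E := {x : Fin (n + m) → ℝ | bs x ∈ closure (rl S) ∧
    5 ≤ (atr A (bs x)).rank ∧ atr A (bs x) *ᵥ fb x ≠ 0 ∧
      fb x ⬝ᵥ atr A (bs x) *ᵥ fb x = 0}) ?_ ?_ ?_
  · refine SAP.and ?_ (SAP.and (sap_rank A 5) (SAP.and ?_ (sap_quad A)))
    · exact SAP.preimage (p := fun v => v ∈ closure (rl S)) hS (fun i => PF.coord _)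
    · have h1 : SAP fun x : Fin (n + m) → ℝ => ∀ i, (atr A (bs x) *ᵥ fb x) i = 0 := by
        refine SAP.forall_fin fun i => SAP.eq_zero ?_
        simp only [mulVec, dotProduct]
        exact PF.sum _ fun j _ => PF.mul
          (pf_atr A i j (φ := fun x : Fin (n + m) → ℝ => bs x) fun k => PF.coord _) (pf_fb j)
      refine SAP.congr h1.not fun x => ?_
      rw [ne_eq, funext_iff]
      rfl
  · rintro _ ⟨x, ⟨h1, h2, h3, h4⟩, rfl⟩
    refine ⟨subset_closure ⟨bs x, h1, rfl⟩, ?_, ?_, ?_⟩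
    · show 5 ≤ (atr A (bs (rv x))).rank
      rw [bs_rv, atr_rv, Pool.Agent.R847.QB.rank_map_eq]
      exact h2
    · show atr A (bs (rv x)) *ᵥ fb (rv x) ≠ 0
      rw [bs_rv, atr_rv, fb_rv, rv_mulVec]
      intro h0
      apply h3
      apply rv_inj
      rw [h0, rv_zero]
    · exact real_of_pts (A := A) (B := S) ⟨h1, h4⟩
  · rintro x ⟨hx1, hx2, hx3, hx4⟩
    rw [Metric.mem_closure_iff]
    intro ε hε
    -- an open set of pairs
    have hcont : Continuous fun y : Fin (n + m) → ℝ => atr A (bs y) *ᵥ fb y := by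
      have hb : Continuous fun y : Fin (n + m) → ℝ => (bs y : Fin n → ℝ) :=
        continuous_pi fun i => continuous_apply _
      have hf : Continuous fun y : Fin (n + m) → ℝ => (fb y : Fin (m + 1) → ℝ) := by
        refine continuous_pi fun i => ?_
        refine Fin.cases ?_ (fun j => ?_) i
        · exact continuous_const
        · exact continuous_apply _
      exact ((atr_continuous A).comp hb).matrix_mulVec hf
    obtain ⟨δ, hδ, hδV⟩ := Metric.eventually_nhds_iff_ball.1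
      (hcont.continuousAt.eventually_ne hx3)
    set η := min ε δ with hη
    have hη0 : 0 < η := lt_min hε hδ
    have h1 := lift' (atr A (bs x)) (atr_symm hA _) (fb x) rfl hx4 hx3 (half_pos hη0)
    have h2 := (atr_continuous A).continuousAt.eventually h1
    have h2' := (atr_continuous A).continuousAt.eventually (rank_open (atr A (bs x)) hx2)
    have h3 := (h2.and h2').and (Metric.ball_mem_nhds (bs x) hη0)
    rw [mem_closure_iff_frequently] at hx1
    obtain ⟨_, ⟨b, hb, rfl⟩, ⟨h4, h4'⟩, h5⟩ := (hx1.and_eventually h3).exists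
    obtain ⟨v', k1, k2, k3⟩ := h4
    have k2' : v' ⬝ᵥ atr A (rv b) *ᵥ v' = 0 := k2
    have h4'' : 5 ≤ (atr A (rv b)).rank := h4'
    rw [atr_rv] at k2'
    rw [atr_rv, Pool.Agent.R847.QB.rank_map_eq] at h4''
    obtain ⟨w, l1, l2, l3⟩ := fibre_dense Pool.Agent.R565.QR.deg' den_ (atq A b) (atq_symm hA b)
      h4'' v' k1 k2' (half_pos hη0)
    have e1 : bs (Fin.append b fun j => w j.succ) = b := by
      funext i
      simp [bs]
    have e2 : fb (Fin.append b fun j => w j.succ) = w := by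
      funext i
      refine Fin.cases ?_ (fun j => ?_) i
      · simp [fb, l1]
      · simp [fb]
    have hdist : dist (rv (Fin.append b fun j => w j.succ)) x < η := by
      rw [dist_pi_lt_iff hη0]
      intro k
      refine Fin.addCases (fun i => ?_) (fun j => ?_) k
      · have h6 : dist (rv b) (bs x) < η := h5
        rw [dist_pi_lt_iff hη0] at h6
        simpa [rv, bs] using h6 i
      · have h6 := l3 j.succ
        have h7 := k3 j.succ
        have h8 : fb x j.succ = x (Fin.natAdd n j) := by simp [fb]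
        rw [h8] at h7
        rw [Real.dist_eq]
        simp only [rv, Fin.append_right]
        calc |(w j.succ : ℝ) - x (Fin.natAdd n j)|
            ≤ |(w j.succ : ℝ) - v' j.succ| + |v' j.succ - x (Fin.natAdd n j)| := abs_sub_le _ _ _
          _ < η := by linarith
    have h9 := hδV _ (Metric.mem_ball.2 (hdist.trans_le (min_le_right _ _)))
    refine ⟨rv (Fin.append b fun j => w j.succ), ⟨_, ⟨?_, ?_, ?_, ?_⟩, rfl⟩, ?_⟩
    · rw [e1]; exact hb
    · rw [e1]; exact h4''
    · rw [e1, e2]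
      intro h0
      apply h9
      rw [bs_rv, atr_rv, fb_rv, rv_mulVec, e1, e2, h0, rv_zero]
    · rw [e1, e2]; exact l2
    · rw [dist_comm]
      exact hdist.trans_le (min_le_left _ _)

/-- **quadric bundles of constant rank** -/
theorem Tm.quadMax {S : Set (Fin n → ℚ)} (hS : Tm S) {A : PM n m} (hA : A.IsSymm) {r : ℕ}
    (hr : 5 ≤ r) (hmax : ∀ b ∈ S, (atq A b).rank ≤ r) :
    Tm {x : Fin (n + m) → ℚ | bs x ∈ S ∧ (atq A (bs x)).rank = r ∧
      fb x ⬝ᵥ atq A (bs x) *ᵥ fb x = 0} := by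
  have h1 := hS.inter_open (isOpen_rank A r) (sap_rank_base A r)
  have e1 : {x : Fin n → ℚ | x ∈ S ∧ rv x ∈ {x : Fin n → ℝ | r ≤ (atr A x).rank}} =
      {x | x ∈ S ∧ (atq A x).rank = r} := by
    ext x
    refine and_congr_right fun hx => ?_
    show r ≤ (atr A (rv x)).rank ↔ _
    rw [atr_rv, Pool.Agent.R847.QB.rank_map_eq]
    have := hmax x hx
    omega
  rw [e1] at h1
  have h2 := strat Pool.Agent.R565.QR.deg' den_ ker_ hA hr (B := {x | x ∈ S ∧ (atq A x).rank = r})
    (fun b hb => hb.2) (by rw [← rl_rv]; exact h1)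
  have e2 : pts A {x | x ∈ S ∧ (atq A x).rank = r} = {x : Fin (n + m) → ℚ | bs x ∈ S ∧
      (atq A (bs x)).rank = r ∧ fb x ⬝ᵥ atq A (bs x) *ᵥ fb x = 0} := by
    ext x
    simp only [pts, Set.mem_ofPred_eq, and_assoc]
  rw [e2] at h2
  unfold Tm
  rw [rl_rv]
  exact h2

end Pool.Agent.Helper14K9.ZT
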