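import Pool.Agent.Helper14K9.ZT.HTri

/-!
# Tower sets are in the Boolean algebra of families satisfying the Hasse principle (helper14)
-/

set_option autoImplicit false

namespace Pool.Agent.Helper14K9.ZT.HT

open Topology Filter Pool.Agent.TH729.SQ Pool.Agent.H581R2 Pool.Agent.TH766.HP
open Pool.Agent.H527R9.CC (FamLoc PadicLoc)

variable {Q : Set ℕ}

/-- a subset of the line with finite frontier -/
lemma alg_real {W : Set ℝ} (hW : (frontier W).Finite) : Alg Q {t : ℚ | (t : ℝ) ∈ W} := by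
  have hfin : {t : ℚ | (t : ℝ) ∈ frontier W}.Finite :=
    hW.preimage (Rat.cast_injective.injOn)
  refine Alg.loc _ ⟨{t : ℚ | (t : ℝ) ∈ W}, fun _ => Set.univ, {t : ℚ | (t : ℝ) ∈ frontier W},
    hfin, ?_, ?_, ?_⟩
  · intro x hx
    have hx' : (x : ℝ) ∉ frontier W := hx
    have key : ∃ ε : ℝ, 0 < ε ∧ ∀ y : ℝ, |y - x| < ε → (y ∈ W ↔ (x : ℝ) ∈ W) := by
      by_cases h : (x : ℝ) ∈ W
      · have h1 : (x : ℝ) ∈ interior W := by
          by_contra hcon
          exact hx' ⟨subset_closure h, hcon⟩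
        obtain ⟨ε, hε, hb⟩ := Metric.mem_nhds_iff.1 (mem_interior_iff_mem_nhds.1 h1)
        refine ⟨ε, hε, fun y hy => ⟨fun _ => h, fun _ => hb ?_⟩⟩
        rw [Metric.mem_ball, Real.dist_eq]
        exact hy
      · have h1 : (x : ℝ) ∉ closure W := by
          intro hcon
          exact hx' ⟨hcon, fun h2 => h (interior_subset h2)⟩
        have h2 : (closure W)ᶜ ∈ 𝓝 (x : ℝ) := isClosed_closure.isOpen_compl.mem_nhds h1
        obtain ⟨ε, hε, hb⟩ := Metric.mem_nhds_iff.1 h2
        refine ⟨ε, hε, fun y hy => ⟨fun h3 => ?_, fun h3 => (h h3).elim⟩⟩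
        exact (hb (by rw [Metric.mem_ball, Real.dist_eq]; exact hy) (subset_closure h3)).elim
    obtain ⟨ε, hε, h⟩ := key
    obtain ⟨η, hη1, hη2⟩ := exists_rat_btwn hε
    refine ⟨η, by exact_mod_cast hη1, fun y hy => h y ?_⟩
    have h3 : ((|y - x| : ℚ) : ℝ) < (η : ℝ) := by exact_mod_cast hy
    push_cast at h3
    exact h3.trans hη2
  · intro p _ x _
    exact ⟨1, one_pos, fun y _ => by simp⟩
  · ext t
    simp

lemma alg_finite {S : Set ℚ} (hS : S.Finite) : Alg Q S := by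
  have h1 : (((↑) : ℚ → ℝ) '' S).Finite := hS.image _
  have h2 := alg_real (Q := Q) (W := ((↑) : ℚ → ℝ) '' S)
    (h1.subset (h1.isClosed.frontier_subset))
  have e : {t : ℚ | (t : ℝ) ∈ ((↑) : ℚ → ℝ) '' S} = S := by
    ext t
    constructor
    · rintro ⟨s, hs, hst⟩
      have : s = t := by exact_mod_cast hst
      rwa [← this]
    · intro ht
      exact ⟨t, ht, rfl⟩
  rwa [e] at h2

lemma alg_union {D E : Set ℚ} (hD : Alg Q D) (hE : Alg Q E) : Alg Q (D ∪ E) := by
  have h := Alg.compl _ (Alg.inter _ _ (Alg.compl _ hD) (Alg.compl _ hE))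
  rwa [Set.compl_inter, compl_compl, compl_compl] at h

lemma alg_iInter {s : ℕ} {E : Fin s → Set ℚ} (hE : ∀ j, Alg Q (E j)) : Alg Q {t | ∀ j, t ∈ E j} := by
  induction s with
  | zero =>
    have h := Alg.compl _ (alg_finite (Q := Q) Set.finite_empty)
    rw [Set.compl_empty] at h
    have e : {t : ℚ | ∀ j : Fin 0, t ∈ E j} = Set.univ := by
      ext t
      simp
    rwa [e]
  | succ s ih =>
    have h := Alg.inter _ _ (hE 0) (ih (E := fun j => E j.succ) fun j => hE j.succ)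
    have e : {t : ℚ | ∀ j, t ∈ E j} = E 0 ∩ {t | ∀ j : Fin s, t ∈ E j.succ} := by
      ext t
      simp [Fin.forall_fin_succ]
    rwa [e]

/-- modification at finitely many points -/
lemma alg_mod {D E B : Set ℚ} (hE : Alg Q E) (hB : B.Finite) (h : ∀ t, t ∉ B → (t ∈ D ↔ t ∈ E)) :
    Alg Q D := by
  have h1 := alg_union (Alg.inter _ _ hE (Alg.compl _ (alg_finite (Q := Q) hB)))
    (alg_finite (Q := Q) (hB.subset (Set.inter_subset_right (s := D))))
  have e : D = E ∩ Bᶜ ∪ D ∩ B := by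
    ext t
    by_cases ht : t ∈ B
    · simp [ht]
    · simp [ht, h t ht]
  rw [e]
  exact h1

/-- **tower sets** -/
theorem alg_tower {D : Set ℚ} (hD : TowerSet D) : Alg Q D := by
  classical
  obtain ⟨k, n, N, ι, T, s, d, r, F, e, hF, he0, hinj, rfl⟩ := hD
  obtain ⟨R, hR1, hR2, hR3⟩ := exists_real T
  -- the real condition
  set C : Set (Fin 1 → ℝ) := {v | ∃ x ∈ R, x (ι 0) = v 0 ∧ ∀ j, Point (F j) (v 0)
    fun i => x (ι (e j i))} with hC
  have hCs : SA C := by
    have h1 := SAP.exists_fun (Fin n) (Fin 1) (fun w => (fun i => w (Sum.inl i)) ∈ R ∧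
      w (Sum.inl (ι 0)) = w (Sum.inr 0) ∧ ∀ j, Point (F j) (w (Sum.inr 0))
        fun i => w (Sum.inl (ι (e j i)))) (by
        refine SAP.and ?_ (SAP.and (SAP.eq (PF.coord _) (PF.coord _)) (SAP.forall_fin fun j => ?_))
        · exact SAP.preimage (p := fun v => v ∈ R) hR1 (fun i => PF.coord _)
        · exact sap_point (PF.coord _) (fun i => PF.coord _) (F j))
    exact SAP.congr h1 fun v => Iff.rfl
  have hCf := (Pool.Agent.TH729.CC.line_SA hCs).1
  set B : Fin s → Set ℚ := fun j => {t : ℚ | (∃ y : Fin (d j) → ℚ, Point (F j) t y) ∧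
    ∃ y : Fin (d j) → ℝ, Point (F j) (t : ℝ) y ∧
    y ∉ closure {v | ∃ y' : Fin (d j) → ℚ, Point (F j) t y' ∧ v = fun i => (y' i : ℝ)}} with hB
  have hBf : (⋃ j, B j).Finite := Set.finite_iUnion fun j => (hF j).2.2
  refine alg_mod (E := {t | ∀ j, t ∈ {x | HasPoint ℚ (F j) x}} ∩
    {t : ℚ | (t : ℝ) ∈ {t : ℝ | (fun _ => t) ∈ C}})
    (Alg.inter _ _ (alg_iInter fun j => Alg.family (F j) (hF j).1 (hF j).2.1) (alg_real hCf)) hBf ?_
  intro t htB
  constructor
  · rintro ⟨x, hx, hxt, hxF⟩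
    refine ⟨fun j => ⟨_, hxF j⟩, ?_⟩
    refine ⟨_, hR2 x hx, ?_, fun j => point_cast (hxF j)⟩
    show ((x (ι 0) : ℚ) : ℝ) = (t : ℝ)
    rw [hxt]
  · rintro ⟨h1, x, hx, hxt, hxF⟩
    obtain ⟨δ, hδ, h2⟩ := hR3 x hx 1 one_pos
    have hxt' : x (ι 0) = (t : ℝ) := hxt
    -- approximation of the points of the families
    have h3 : ∀ j, ∃ y' : Fin (d j) → ℚ, Point (F j) t y' ∧
        ∀ i, |((y' i : ℚ) : ℝ) - x (ι (e j i))| < δ := by
      intro j
      have h4 : t ∉ B j := fun h => htB (Set.mem_iUnion.2 ⟨j, h⟩)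
      have h5 : (fun i => x (ι (e j i))) ∈
          closure {v | ∃ y' : Fin (d j) → ℚ, Point (F j) t y' ∧ v = fun i => (y' i : ℝ)} := by
        by_contra hcon
        exact h4 ⟨h1 j, _, hxF j, hcon⟩
      rw [Metric.mem_closure_iff] at h5
      obtain ⟨_, ⟨y', hy', rfl⟩, h6⟩ := h5 δ hδ
      refine ⟨y', hy', fun i => ?_⟩
      rw [dist_comm, dist_pi_lt_iff hδ] at h6
      have := h6 i
      rwa [Real.dist_eq] at this
    choose y' hy' hyx using h3
    have h7 : ∀ l : Fin (k + 1), ∃ u : ℚ, |(u : ℝ) - x (ι l)| < δ := by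
      intro l
      obtain ⟨u, hu1, hu2⟩ := exists_rat_btwn (show x (ι l) < x (ι l) + δ by linarith)
      exact ⟨u, by rw [abs_lt]; constructor <;> linarith⟩
    choose u₀ hu₀ using h7
    set u : Fin (k + 1) → ℚ := fun l =>
      if h : ∃ p : (j : Fin s) × Fin (d j), e p.1 p.2 = l then y' h.choose.1 h.choose.2 else
        if l = 0 then t else u₀ l with hu
    have hu1 : ∀ j i, u (e j i) = y' j i := by
      intro j i
      have hex : ∃ p : (j : Fin s) × Fin (d j), e p.1 p.2 = e j i := ⟨⟨j, i⟩, rfl⟩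
      have h8 : hex.choose = ⟨j, i⟩ := hinj hex.choose_spec
      rw [hu]
      simp only
      rw [dif_pos hex, h8]
    have hu2 : u 0 = t := by
      have hne : ¬ ∃ p : (j : Fin s) × Fin (d j), e p.1 p.2 = 0 := by
        rintro ⟨p, hp⟩
        exact he0 p.1 p.2 hp
      rw [hu]
      simp only
      rw [dif_neg hne]
      simp
    have hu3 : ∀ l, |((u l : ℚ) : ℝ) - x (ι l)| < δ := by
      intro l
      by_cases hl : ∃ p : (j : Fin s) × Fin (d j), e p.1 p.2 = l
      · obtain ⟨⟨j, i⟩, rfl⟩ := hl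
        rw [hu1]
        exact hyx j i
      · by_cases hl0 : l = 0
        · subst hl0
          rw [hu2, hxt', sub_self, abs_zero]
          exact hδ
        · have : u l = u₀ l := by
            rw [hu]
            simp only
            rw [dif_neg hl, if_neg hl0]
          rw [this]
          exact hu₀ l
    obtain ⟨z, hz, hzu, -⟩ := h2 u hu3
    refine ⟨z, hz, ?_, fun j => ?_⟩
    · rw [hzu, hu2]
    · have h9 : (fun i => z (ι (e j i))) = y' j := by
        funext i
        rw [hzu, hu1]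
      rw [h9]
      exact hy' j

theorem alg_of {D : Set ℚ} (h : BoolAlg Q D) : Alg Q D := by
  induction h with
  | tower D h => exact alg_tower h
  | old D h => exact h
  | compl D _ ih => exact Alg.compl _ ih
  | inter D E _ _ ih1 ih2 => exact Alg.inter _ _ ih1 ih2

end Pool.Agent.Helper14K9.ZT.HT
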