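import Pool.Agent.TH766.HP.Alg

/-!
# Towers of quadrics over families satisfying the Hasse principle: definitions (helper14)
-/

set_option autoImplicit false

namespace Pool.Agent.Helper14K9.ZT.HT

open Polynomial Matrix Pool.Agent.TH766.HP

/-- `w`, for `x = (w, z)`. -/
def base {R : Type} {n m : ℕ} (x : Fin (n + m) → R) : Fin n → R := fun i => x (Fin.castAdd m i)

/-- `(1, z)`, for `x = (w, z)`. -/
def vec {R : Type} [One R] {n m : ℕ} (x : Fin (n + m) → R) : Fin (m + 1) → R :=
  Fin.cons 1 fun j => x (Fin.natAdd n j)

/-- Triangular systems of quadratic equations with `n` variables, `k` of which are free; the numbers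
of the free variables are `ι 0, …, ι (k - 1)`. `N` is the set of the nondegenerate rational
solutions: at each step the symmetric matrix of the equation has rank at least five at the solution,
and the solution is not a vertex of the equation or the rank is maximal. -/
inductive Triangular (k : ℕ) : ∀ n : ℕ, Set (Fin n → ℚ) → (Fin k → Fin n) → Prop
  /-- `k` free variables, no equation -/
  | free : Triangular k k Set.univ id
  /-- `m` new variables `z` and one equation which is quadratic in `z`, whose coefficients are
  polynomials in all the previous variables -/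
  | step {n : ℕ} {N : Set (Fin n → ℚ)} {ι : Fin k → Fin n} (m : ℕ)
      (A : Matrix (Fin (m + 1)) (Fin (m + 1)) (MvPolynomial (Fin n) ℚ)) : A.IsSymm →
      Triangular k n N ι →
      Triangular k (n + m)
        {x | base x ∈ N ∧ 5 ≤ (A.map (MvPolynomial.eval (base x))).rank ∧
          (A.map (MvPolynomial.eval (base x)) *ᵥ vec x ≠ 0 ∨
            ∀ w : Fin n → ℚ, (A.map (MvPolynomial.eval w)).rank ≤
              (A.map (MvPolynomial.eval (base x))).rank) ∧
          vec x ⬝ᵥ A.map (MvPolynomial.eval (base x)) *ᵥ vec x = 0}
        fun i => Fin.castAdd m (ι i)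

/-- `y` represents a point over `k` of the fibre at `t` of the family of projective schemes given by
the polynomials `F j (t; y)` (homogeneous in `y`). -/
def Point {k : Type} [Field k] [Algebra ℚ k] {d r : ℕ} (F : Fin r → MvPolynomial (Fin d) ℚ[X])
    (t : k) (y : Fin d → k) : Prop :=
  y ≠ 0 ∧ ∀ j, MvPolynomial.eval₂ ((aeval t : ℚ[X] →ₐ[ℚ] k) : ℚ[X] →+* k) y (F j) = 0

/-- For all but finitely many rational `t` for which the fibre has a rational point, the rational
points of the fibre are dense in its real points. -/
def RealDense {d r : ℕ} (F : Fin r → MvPolynomial (Fin d) ℚ[X]) : Prop :=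
  {t : ℚ | (∃ y : Fin d → ℚ, Point F t y) ∧ ∃ y : Fin d → ℝ, Point F (t : ℝ) y ∧
    y ∉ closure {v | ∃ y' : Fin d → ℚ, Point F t y' ∧ v = fun i => (y' i : ℝ)}}.Finite

/-- The set of the rational numbers `t` for which there are rational points `y_j` of the fibres at
`t` of given families `F j` of projective schemes, satisfying the Hasse principle and `RealDense`,
rational numbers `w` and a nondegenerate rational solution of a given triangular system with the
free variables `t`, `y_j`, `w`. -/
def TowerSet (D : Set ℚ) : Prop :=
  ∃ (k n : ℕ) (N : Set (Fin n → ℚ)) (ι : Fin (k + 1) → Fin n), Triangular (k + 1) n N ι ∧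
    ∃ (s : ℕ) (d r : Fin s → ℕ) (F : ∀ j, Fin (r j) → MvPolynomial (Fin (d j)) ℚ[X])
      (e : ∀ j, Fin (d j) → Fin (k + 1)),
      (∀ j, Homog (F j) ∧ HasseGen (F j) ∧ RealDense (F j)) ∧
      (∀ j i, e j i ≠ 0) ∧ Function.Injective (fun p : (j : Fin s) × Fin (d j) => e p.1 p.2) ∧
      D = {t | ∃ x ∈ N, x (ι 0) = t ∧ ∀ j, Point (F j) t fun i => x (ι (e j i))}

/-- The Boolean algebra of sets of rational numbers generated by the sets as in `TowerSet` and by the
sets of `HassePrincipleFamilies`: the sets of the `t` for which the fibre of a family satisfying the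
Hasse principle has a rational point, the local conditions at single primes, and the conjunctions
of a real condition and of `p`-adic conditions for all primes `p ∉ Q`. -/
inductive BoolAlg (Q : Set ℕ) : Set ℚ → Prop
  | tower (D : Set ℚ) (h : TowerSet D) : BoolAlg Q D
  | old (D : Set ℚ) (h : Alg Q D) : BoolAlg Q D
  | compl (D : Set ℚ) (h : BoolAlg Q D) : BoolAlg Q Dᶜ
  | inter (D E : Set ℚ) (hD : BoolAlg Q D) (hE : BoolAlg Q E) : BoolAlg Q (D ∩ E)

/-- the family of quadrics `yᵀ A(t) y = 0` -/
noncomputable def quadric {d : ℕ} (A : Matrix (Fin d) (Fin d) ℚ[X]) :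
    Fin 1 → MvPolynomial (Fin d) ℚ[X] :=
  fun _ => ∑ i, ∑ j, MvPolynomial.C (A i j) * MvPolynomial.X i * MvPolynomial.X j

end Pool.Agent.Helper14K9.ZT.HT
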