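import Pool.Agent.Helper14K9.ZT.HAlg
import Pool.Agent.H527R9.CC.T_CON
import Pool.Agent.H527R9.CC.T_HM
import Pool.Agent.H527R9.CC.T_HMA
import Pool.Agent.H527R9.CC.T_HMB
import Pool.Agent.H527R9.CC.T_HS

/-!
# Families of quadrics (helper14)
-/

set_option autoImplicit false

namespace Pool.Agent.Helper14K9.ZT.HT

open Matrix Topology Filter Pool.Agent.TH766.HP Pool.Agent.R847.QB
open Pool.Agent.H527R9.CC (Hs)

/-- density of the rational points of a quadric with a nonsingular rational point -/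
theorem dens {N : ℕ} (M : Matrix (Fin N) (Fin N) ℚ) (hM : M.IsSymm) (w0 : Fin N → ℚ)
    (hw0 : M *ᵥ w0 ≠ 0) (hw : w0 ⬝ᵥ M *ᵥ w0 = 0) (v : Fin N → ℝ)
    (hv : v ⬝ᵥ (M.map (algebraMap ℚ ℝ)) *ᵥ v = 0) (hMv : (M.map (algebraMap ℚ ℝ)) *ᵥ v ≠ 0)
    {ε : ℝ} (hε : 0 < ε) :
    ∃ w : Fin N → ℚ, w ⬝ᵥ M *ᵥ w = 0 ∧ ∀ i, |((w i : ℚ) : ℝ) - v i| < ε := by
  set MR := M.map (algebraMap ℚ ℝ) with hMR
  have hMRs : MR.IsSymm := map_symm hM
  -- a rational isotropic vector which is not orthogonal to `v`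
  have h1 : ∃ w1 : Fin N → ℚ, w1 ⬝ᵥ M *ᵥ w1 = 0 ∧ rv w1 ⬝ᵥ MR *ᵥ v ≠ 0 := by
    by_cases h : rv w0 ⬝ᵥ MR *ᵥ v = 0
    · have hc1 : Continuous fun u : Fin N → ℝ => rv w0 ⬝ᵥ MR *ᵥ u := by
        simp only [mulVec, dotProduct]
        fun_prop
      have hc2 : Continuous fun u : Fin N → ℝ => u ⬝ᵥ MR *ᵥ v := by
        simp only [mulVec, dotProduct]
        fun_prop
      have hex : ∃ u : Fin N → ℝ, rv w0 ⬝ᵥ MR *ᵥ u ≠ 0 ∧ u ⬝ᵥ MR *ᵥ v ≠ 0 := by
        have hA : ∃ u : Fin N → ℝ, rv w0 ⬝ᵥ MR *ᵥ u ≠ 0 := by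
          obtain ⟨i, hi⟩ : ∃ i, (M *ᵥ w0) i ≠ 0 := by
            by_contra hcon
            push Not at hcon
            exact hw0 (funext hcon)
          refine ⟨Pi.single i 1, ?_⟩
          rw [symm_dot hMRs, single_dotProduct, one_mul, rv_mulVec]
          simpa [rv] using hi
        have hB : ∃ u : Fin N → ℝ, u ⬝ᵥ MR *ᵥ v ≠ 0 := by
          obtain ⟨i, hi⟩ : ∃ i, (MR *ᵥ v) i ≠ 0 := by
            by_contra hcon
            push Not at hcon
            exact hMv (funext hcon)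
          refine ⟨Pi.single i 1, ?_⟩
          rwa [single_dotProduct, one_mul]
        obtain ⟨u1, h1⟩ := hA
        obtain ⟨u2, h2⟩ := hB
        by_cases h3 : u1 ⬝ᵥ MR *ᵥ v = 0
        · by_cases h4 : rv w0 ⬝ᵥ MR *ᵥ u2 = 0
          · refine ⟨u1 + u2, ?_, ?_⟩
            · rw [mulVec_add, dotProduct_add, h4, add_zero]
              exact h1
            · rw [add_dotProduct, h3, zero_add]
              exact h2
          · exact ⟨u2, h4, h2⟩
        · exact ⟨u1, h1, h3⟩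
      obtain ⟨u, hu1, hu2⟩ := hex
      have hU : {u : Fin N → ℝ | rv w0 ⬝ᵥ MR *ᵥ u ≠ 0 ∧ u ⬝ᵥ MR *ᵥ v ≠ 0} ∈ 𝓝 u :=
        (hc1.continuousAt.eventually_ne hu1).and (hc2.continuousAt.eventually_ne hu2)
      obtain ⟨u0, hu3, hu4⟩ := exists_rat hU
      refine ⟨pr M w0 u0, pr_iso hM hw u0, ?_⟩
      rw [rv_pr, pr_dot, h, mul_zero, zero_sub, neg_ne_zero]
      exact mul_ne_zero (mul_ne_zero two_ne_zero hu3) hu4
    · exact ⟨w0, hw, h⟩
  obtain ⟨w1, hw1, hw1v⟩ := h1
  set c : ℝ := -(2 * (rv w1 ⬝ᵥ MR *ᵥ v)) with hc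
  have hc0 : c ≠ 0 := neg_ne_zero.2 (mul_ne_zero two_ne_zero hw1v)
  have hZv : pr MR (rv w1) v = c • v := by
    simp only [pr, hv, zero_smul, zero_sub, hc, neg_smul]
  have hZc := pr_continuous MR (rv w1)
  have hcont : ContinuousAt (fun p : (Fin N → ℝ) × ℝ => p.2⁻¹ • pr MR (rv w1) p.1) (v, c) := by
    have k1 : ContinuousAt (fun p : (Fin N → ℝ) × ℝ => p.2⁻¹) (v, c) :=
      (continuous_snd.continuousAt).inv₀ hc0
    have k2 : ContinuousAt (fun p : (Fin N → ℝ) × ℝ => pr MR (rv w1) p.1) (v, c) :=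
      (hZc.comp continuous_fst).continuousAt
    exact k1.smul k2
  have hval : (fun p : (Fin N → ℝ) × ℝ => p.2⁻¹ • pr MR (rv w1) p.1) (v, c) = v := by
    show c⁻¹ • pr MR (rv w1) v = v
    rw [hZv, smul_smul, inv_mul_cancel₀ hc0, one_smul]
  have h2 : ∀ᶠ p in 𝓝 (v, c), dist ((fun p : (Fin N → ℝ) × ℝ => p.2⁻¹ • pr MR (rv w1) p.1) p) v < ε := by
    have h3 := hcont.tendsto
    have hval' : (v, c).2⁻¹ • pr MR (rv w1) (v, c).1 = v := hval
    rw [hval'] at h3
    exact h3 (Metric.ball_mem_nhds v hε)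
  rw [nhds_prod_eq, Filter.eventually_prod_iff] at h2
  obtain ⟨P1, hP1, P2, hP2, hP⟩ := h2
  obtain ⟨u, hu⟩ := exists_rat (U := {x | P1 x}) hP1
  obtain ⟨η, hη, hη2⟩ := Metric.eventually_nhds_iff_ball.1 hP2
  obtain ⟨c', hc1, hc2⟩ := exists_rat_btwn (show c < c + η by linarith)
  have h4 := hP hu (y := (c' : ℝ)) (hη2 _ (by
    rw [Metric.mem_ball, Real.dist_eq, abs_lt]
    constructor <;> linarith))
  refine ⟨(c'⁻¹ : ℚ) • pr M w1 u, ?_, fun i => ?_⟩
  · rw [mulVec_smul, smul_dotProduct, dotProduct_smul, pr_iso hM hw1 u]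
    simp
  · rw [dist_pi_lt_iff hε] at h4
    have h5 := h4 i
    rw [Real.dist_eq] at h5
    have e : ((((c'⁻¹ : ℚ) • pr M w1 u) i : ℚ) : ℝ) = ((c' : ℝ)⁻¹ • pr MR (rv w1) (rv u)) i := by
      rw [← rv_pr]
      simp [rv]
    rw [e]
    exact h5

/-- evaluation of a family of quadrics -/
theorem eval_quadric {R : Type} [CommRing R] (φ : Polynomial ℚ →+* R) {d : ℕ}
    (A : Matrix (Fin d) (Fin d) (Polynomial ℚ)) (y : Fin d → R) (j : Fin 1) :
    MvPolynomial.eval₂ φ y (quadric A j) = y ⬝ᵥ (A.map φ) *ᵥ y := by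
  simp only [quadric, MvPolynomial.eval₂_sum, MvPolynomial.eval₂_mul, MvPolynomial.eval₂_C,
    MvPolynomial.eval₂_X, dotProduct, mulVec, Finset.mul_sum, Matrix.map_apply]
  refine Finset.sum_congr rfl fun i _ => Finset.sum_congr rfl fun j _ => ?_
  ring

theorem homog_quadric {d : ℕ} (A : Matrix (Fin d) (Fin d) (Polynomial ℚ)) : Homog (quadric A) := by
  intro _
  refine ⟨2, ?_⟩
  refine MvPolynomial.IsHomogeneous.sum _ _ _ fun i _ => MvPolynomial.IsHomogeneous.sum _ _ _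
    fun j _ => ?_
  have h1 := ((MvPolynomial.isHomogeneous_C (Fin d) (A i j)).mul
    (MvPolynomial.isHomogeneous_X (Polynomial ℚ) i)).mul
    (MvPolynomial.isHomogeneous_X (Polynomial ℚ) j)
  simpa using h1

/-- the finitely many degenerate fibres -/
theorem bad_finite {d : ℕ} {A : Matrix (Fin d) (Fin d) (Polynomial ℚ)} (hA : A.det ≠ 0) :
    {t : ℚ | (A.map (Polynomial.eval t)).det = 0}.Finite := by
  refine (A.det.roots.toFinset.finite_toSet).subset fun t ht => ?_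
  rw [Finset.mem_coe, Multiset.mem_toFinset, Polynomial.mem_roots hA, Polynomial.IsRoot.def]
  have h1 := RingHom.map_det (Polynomial.evalRingHom t) A
  rw [Polynomial.coe_evalRingHom] at h1
  rw [h1]
  exact ht

theorem map_real {d : ℕ} (A : Matrix (Fin d) (Fin d) (Polynomial ℚ)) (t : ℚ) :
    A.map ((Polynomial.aeval (t : ℝ) : Polynomial ℚ →ₐ[ℚ] ℝ) : Polynomial ℚ →+* ℝ) =
      (A.map (Polynomial.eval t)).map (algebraMap ℚ ℝ) := by
  ext i j
  simp only [Matrix.map_apply]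
  exact Polynomial.aeval_algebraMap_apply_eq_algebraMap_eval t (A i j)

theorem map_rat {d : ℕ} (A : Matrix (Fin d) (Fin d) (Polynomial ℚ)) (t : ℚ) :
    A.map ((Polynomial.aeval t : Polynomial ℚ →ₐ[ℚ] ℚ) : Polynomial ℚ →+* ℚ) =
      A.map (Polynomial.eval t) := by
  ext i j
  simp only [Matrix.map_apply]
  exact congrFun (Polynomial.coe_aeval_eq_eval t) (A i j)

theorem symm_map {d : ℕ} {A : Matrix (Fin d) (Fin d) (Polynomial ℚ)} (hA : A.IsSymm) (t : ℚ) :
    (A.map (Polynomial.eval t)).IsSymm := by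
  ext i j
  simp only [Matrix.transpose_apply, Matrix.map_apply]
  rw [hA.apply]

theorem mulVec_ne {R : Type} [Field R] {d : ℕ} {M : Matrix (Fin d) (Fin d) R} (hM : M.det ≠ 0)
    {y : Fin d → R} (hy : y ≠ 0) : M *ᵥ y ≠ 0 := by
  intro h
  apply hy
  have h1 := congrArg (fun z => M⁻¹ *ᵥ z) h
  simp only [mulVec_mulVec, mulVec_zero] at h1
  rwa [Matrix.nonsing_inv_mul _ (isUnit_iff_ne_zero.2 hM), one_mulVec] at h1

theorem det_real {d : ℕ} {M : Matrix (Fin d) (Fin d) ℚ} (hM : M.det ≠ 0) :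
    (M.map (algebraMap ℚ ℝ)).det ≠ 0 := by
  have h1 := RingHom.map_det (algebraMap ℚ ℝ) M
  rw [RingHom.mapMatrix_apply] at h1
  rw [← h1]
  simpa using hM

/-- **families of quadrics** -/
theorem realDense_quadric {d : ℕ} {A : Matrix (Fin d) (Fin d) (Polynomial ℚ)} (hA : A.IsSymm)
    (hdet : A.det ≠ 0) : RealDense (quadric A) := by
  refine (bad_finite hdet).subset ?_
  rintro t ⟨⟨w, hw0, hw⟩, y, ⟨hy0, hy⟩, hcl⟩
  by_contra hdt
  apply hcl
  have hdt' : (A.map (Polynomial.eval t)).det ≠ 0 := hdt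
  have h1 := hw 0
  rw [eval_quadric, map_rat] at h1
  have h2 := hy 0
  rw [eval_quadric, map_real] at h2
  rw [Metric.mem_closure_iff]
  intro ε hε
  obtain ⟨i0, hi0⟩ : ∃ i, y i ≠ 0 := by
    by_contra hcon
    push Not at hcon
    exact hy0 (funext hcon)
  have hη : 0 < min ε |y i0| := lt_min hε (abs_pos.2 hi0)
  obtain ⟨z, hz1, hz2⟩ := dens _ (symm_map hA t) w (mulVec_ne hdt' hw0) h1 y h2
    (mulVec_ne (det_real hdt') hy0) hη
  refine ⟨fun i => (z i : ℝ), ⟨z, ⟨?_, fun j => ?_⟩, rfl⟩, ?_⟩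
  · intro h0
    have h3 := hz2 i0
    rw [h0] at h3
    simp only [Pi.zero_apply, Rat.cast_zero, zero_sub, abs_neg] at h3
    exact absurd (h3.trans_le (min_le_right _ _)) (lt_irrefl _)
  · rw [eval_quadric, map_rat]
    exact hz1
  · rw [dist_comm, dist_pi_lt_iff hε]
    intro i
    rw [Real.dist_eq]
    exact (hz2 i).trans_le (min_le_left _ _)

/-- families of quadrics in at least five variables -/
theorem hasse_five {d : ℕ} (hd : 5 ≤ d) {A : Matrix (Fin d) (Fin d) (Polynomial ℚ)}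
    (hA : A.IsSymm) (hdet : A.det ≠ 0) : HasseGen (quadric A) := by
  intro a b hb
  refine ⟨a, b, hb, dvd_rfl, by simp, (bad_finite hdet).subset ?_⟩
  rintro t ⟨-, ⟨⟨y, hy0, hy⟩, -⟩, hno⟩
  by_contra hdt
  apply hno
  have hdt' : (A.map (Polynomial.eval t)).det ≠ 0 := hdt
  have h2 := hy 0
  rw [eval_quadric, map_real] at h2
  have hr : 5 ≤ (A.map (Polynomial.eval t)).rank := by
    have h3 := rank_of_det_ne_zero hdt'
    rw [Fintype.card_fin] at h3
    rw [h3]
    exact hd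
  obtain ⟨w, hw1, hw2⟩ := Pool.Agent.R565.QR.deg' d _ (symm_map hA t) hr
    ⟨y, mulVec_ne (det_real hdt') hy0, h2⟩
  refine ⟨w, ?_, fun j => ?_⟩
  · intro h0
    apply hw1
    rw [h0, mulVec_zero]
  · rw [eval_quadric, map_rat]
    exact hw2

/-- ternary forms and conics in standard form -/
theorem hs_iff {k : Type} [Field k] (α β γ : k) (hγ : γ ≠ 0) :
    (∃ y : Fin 3 → k, y ≠ 0 ∧ α * y 0 ^ 2 + β * y 1 ^ 2 + γ * y 2 ^ 2 = 0) ↔
      Hs k (-(α * γ)) (-(β * γ)) := by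
  constructor
  · rintro ⟨y, hy0, hy⟩
    refine ⟨y 0, y 1, γ * y 2, ?_, by linear_combination γ * hy⟩
    by_contra hcon
    push Not at hcon
    apply hy0
    funext i
    fin_cases i
    · exact hcon.1
    · exact hcon.2.1
    · exact (mul_eq_zero.1 hcon.2.2).resolve_left hγ
  · rintro ⟨x, y, z, h0, h⟩
    refine ⟨![x, y, z / γ], ?_, ?_⟩
    · intro hz
      have h1 := congrFun hz 0
      have h2 := congrFun hz 1
      have h3 := congrFun hz 2
      simp only [Matrix.cons_val_zero, Matrix.cons_val_one, Matrix.cons_val_two, Pi.zero_apply,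
        Matrix.tail_cons, Matrix.head_cons] at h1 h2 h3
      rcases h0 with h0 | h0 | h0
      · exact h0 h1
      · exact h0 h2
      · exact h0 ((div_eq_zero_iff.1 h3).resolve_right hγ)
    · simp only [Matrix.cons_val_zero, Matrix.cons_val_one, Matrix.cons_val_two,
        Matrix.tail_cons, Matrix.head_cons]
      field_simp
      linear_combination h

/-- diagonal ternary forms -/
theorem quad_diag {R : Type} [CommRing R] (a b c : R) (y : Fin 3 → R) :
    y ⬝ᵥ (Matrix.diagonal ![a, b, c]) *ᵥ y = a * y 0 ^ 2 + b * y 1 ^ 2 + c * y 2 ^ 2 := by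
  simp only [dotProduct, Matrix.mulVec_diagonal, Fin.sum_univ_three, Matrix.cons_val_zero,
    Matrix.cons_val_one, Matrix.cons_val_two, Matrix.tail_cons, Matrix.head_cons]
  ring

/-- **families of conics** -/
theorem hasse_conic (a b c : Polynomial ℚ) (ha : a ≠ 0) (hb : b ≠ 0) (hc : c ≠ 0) :
    HasseGen (quadric (Matrix.diagonal ![a, b, c])) := by
  have hHM : Pool.Agent.H527R9.CC.S_HM := Pool.Agent.H527R9.CC.t_HM Pool.Agent.H527R9.CC.t_HMA
    Pool.Agent.H527R9.CC.t_HMB Pool.Agent.H527R9.CC.t_HS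
  have key : ∀ (k : Type) [Field k] [Algebra ℚ k] [CharZero k] (t : ℚ) (s : k),
      s = (t : k) → Polynomial.eval t c ≠ 0 →
      (HasPoint k (quadric (Matrix.diagonal ![a, b, c])) s ↔
        Hs k ((-(Polynomial.eval t a * Polynomial.eval t c) : ℚ) : k)
          ((-(Polynomial.eval t b * Polynomial.eval t c) : ℚ) : k)) := by
    intro k _ _ _ t s hs hct
    subst hs
    have e1 : ∀ f : Polynomial ℚ, ((Polynomial.aeval (t : k) : Polynomial ℚ →ₐ[ℚ] k) :
        Polynomial ℚ →+* k) f = ((Polynomial.eval t f : ℚ) : k) := by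
      intro f
      have h1 := Polynomial.aeval_algebraMap_apply_eq_algebraMap_eval (A := k) t f
      rw [eq_ratCast, eq_ratCast] at h1
      exact h1
    have hck : ((Polynomial.eval t c : ℚ) : k) ≠ 0 := by exact_mod_cast hct
    have h2 := hs_iff ((Polynomial.eval t a : ℚ) : k) ((Polynomial.eval t b : ℚ) : k)
      ((Polynomial.eval t c : ℚ) : k) hck
    push_cast
    rw [← h2]
    refine exists_congr fun y => and_congr_right fun _ => ?_
    have e2 : (Matrix.diagonal ![a, b, c]).map ((Polynomial.aeval (t : k) :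
        Polynomial ℚ →ₐ[ℚ] k) : Polynomial ℚ →+* k) = Matrix.diagonal
        ![((Polynomial.eval t a : ℚ) : k), ((Polynomial.eval t b : ℚ) : k),
          ((Polynomial.eval t c : ℚ) : k)] := by
      rw [Matrix.diagonal_map (map_zero _)]
      congr 1
      funext i
      fin_cases i
      · exact e1 a
      · exact e1 b
      · exact e1 c
    have e3 : ∀ j : Fin 1, MvPolynomial.eval₂ ((Polynomial.aeval (t : k) :
        Polynomial ℚ →ₐ[ℚ] k) : Polynomial ℚ →+* k) y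
        (quadric (Matrix.diagonal ![a, b, c]) j) = ((Polynomial.eval t a : ℚ) : k) * y 0 ^ 2 +
          ((Polynomial.eval t b : ℚ) : k) * y 1 ^ 2 + ((Polynomial.eval t c : ℚ) : k) * y 2 ^ 2 := by
      intro j
      rw [eval_quadric, e2, quad_diag]
    constructor
    · intro h
      rw [← e3 0]
      exact h 0
    · intro h j
      rw [e3]
      exact h
  intro a' b' hb'
  refine ⟨a', b', hb', dvd_rfl, by simp, ?_⟩
  have hfin : ({t : ℚ | Polynomial.eval t (a * b * c) = 0}).Finite := by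
    have hne : a * b * c ≠ 0 := mul_ne_zero (mul_ne_zero ha hb) hc
    refine ((a * b * c).roots.toFinset.finite_toSet).subset fun t ht => ?_
    rw [Finset.mem_coe, Multiset.mem_toFinset, Polynomial.mem_roots hne]
    exact ht
  refine hfin.subset ?_
  rintro t ⟨-, ⟨hR, hP⟩, hno⟩
  by_contra ht
  have ht' : Polynomial.eval t (a * b * c) ≠ 0 := ht
  rw [Polynomial.eval_mul, Polynomial.eval_mul] at ht'
  have hct : Polynomial.eval t c ≠ 0 := right_ne_zero_of_mul ht'
  have hat : Polynomial.eval t a ≠ 0 := left_ne_zero_of_mul (left_ne_zero_of_mul ht')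
  have hbt : Polynomial.eval t b ≠ 0 := right_ne_zero_of_mul (left_ne_zero_of_mul ht')
  apply hno
  refine (key ℚ t t (by simp) hct).2 ?_
  have h1 := Pool.Agent.H527R9.CC.CON_hm hHM Pool.Agent.H527R9.CC.t_HS
    (-(Polynomial.eval t a * Polynomial.eval t c)) (-(Polynomial.eval t b * Polynomial.eval t c))
    (neg_ne_zero.2 (mul_ne_zero hat hct)) (neg_ne_zero.2 (mul_ne_zero hbt hct))
    ((key ℝ t t rfl hct).1 hR) (fun p _ => (key ℚ_[p] t t rfl hct).1 (hP p))
  simpa using h1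

end Pool.Agent.Helper14K9.ZT.HT
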