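import Pool.Agent.Helper14K9.ZT.Fam

/-!
# One step of a tower of quadric bundles (helper14)
-/

set_option autoImplicit false

namespace Pool.Agent.Helper14K9.ZT

open Matrix Topology Filter MvPolynomial Pool.Agent.TH729.SQ Pool.Agent.H581R2 Pool.Agent.R847.QB

variable {n m : ℕ}

lemma Tm.empty {n : ℕ} : Tm (∅ : Set (Fin n → ℚ)) := by
  have h : rl (∅ : Set (Fin n → ℚ)) = ∅ := by rw [rl_rv, Set.image_empty]
  unfold Tm
  rw [h, closure_empty]
  exact SA.empty

/-- **quadric bundles** -/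
theorem Tm.quadU {S : Set (Fin n → ℚ)} (hS : Tm S) {A : PM n m} (hA : A.IsSymm) :
    Tm {x : Fin (n + m) → ℚ | bs x ∈ S ∧ 5 ≤ (atq A (bs x)).rank ∧
      (atq A (bs x) *ᵥ fb x ≠ 0 ∨ ∀ w ∈ S, (atq A w).rank ≤ (atq A (bs x)).rank) ∧
      fb x ⬝ᵥ atq A (bs x) *ᵥ fb x = 0} := by
  by_cases hr : ∃ r, 5 ≤ r ∧ (∀ w ∈ S, (atq A w).rank ≤ r) ∧ ∃ w ∈ S, (atq A w).rank = r
  · obtain ⟨r, hr5, hmax, w₀, hw₀, hr₀⟩ := hr
    have h := (hS.quad hA).union (hS.quadMax hA hr5 hmax)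
    have e : {x : Fin (n + m) → ℚ | bs x ∈ S ∧ 5 ≤ (atq A (bs x)).rank ∧
        (atq A (bs x) *ᵥ fb x ≠ 0 ∨ ∀ w ∈ S, (atq A w).rank ≤ (atq A (bs x)).rank) ∧
        fb x ⬝ᵥ atq A (bs x) *ᵥ fb x = 0} =
        {x : Fin (n + m) → ℚ | bs x ∈ S ∧ 5 ≤ (atq A (bs x)).rank ∧
          atq A (bs x) *ᵥ fb x ≠ 0 ∧ fb x ⬝ᵥ atq A (bs x) *ᵥ fb x = 0} ∪
        {x : Fin (n + m) → ℚ | bs x ∈ S ∧ (atq A (bs x)).rank = r ∧
          fb x ⬝ᵥ atq A (bs x) *ᵥ fb x = 0} := by
      ext x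
      constructor
      · rintro ⟨h1, h2, h3 | h3, h4⟩
        · exact Or.inl ⟨h1, h2, h3, h4⟩
        · refine Or.inr ⟨h1, le_antisymm (hmax _ h1) ?_, h4⟩
          rw [← hr₀]
          exact h3 w₀ hw₀
      · rintro (⟨h1, h2, h3, h4⟩ | ⟨h1, h2, h4⟩)
        · exact ⟨h1, h2, Or.inl h3, h4⟩
        · exact ⟨h1, by rw [h2]; exact hr5, Or.inr fun w hw => by rw [h2]; exact hmax w hw, h4⟩
    rw [e]
    exact h
  · have e : {x : Fin (n + m) → ℚ | bs x ∈ S ∧ 5 ≤ (atq A (bs x)).rank ∧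
        (atq A (bs x) *ᵥ fb x ≠ 0 ∨ ∀ w ∈ S, (atq A w).rank ≤ (atq A (bs x)).rank) ∧
        fb x ⬝ᵥ atq A (bs x) *ᵥ fb x = 0} =
        {x : Fin (n + m) → ℚ | bs x ∈ S ∧ 5 ≤ (atq A (bs x)).rank ∧
          atq A (bs x) *ᵥ fb x ≠ 0 ∧ fb x ⬝ᵥ atq A (bs x) *ᵥ fb x = 0} := by
      ext x
      constructor
      · rintro ⟨h1, h2, h3 | h3, h4⟩
        · exact ⟨h1, h2, h3, h4⟩
        · exact (hr ⟨_, h2, h3, _, h1, rfl⟩).elim
      · rintro ⟨h1, h2, h3, h4⟩
        exact ⟨h1, h2, Or.inl h3, h4⟩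
    rw [e]
    exact hS.quad hA

/-- a nondegenerate real solution deforms to rational solutions over all rational points near the
base point -/
theorem step_lift {A : PM n m} (hA : A.IsSymm) (x : Fin (n + m) → ℝ)
    (h5 : 5 ≤ (atr A (bs x)).rank)
    (hnd : atr A (bs x) *ᵥ fb x ≠ 0 ∨ ∀ w : Fin n → ℚ, (atq A w).rank ≤ (atr A (bs x)).rank)
    (h0 : fb x ⬝ᵥ atr A (bs x) *ᵥ fb x = 0) {ε : ℝ} (hε : 0 < ε) :
    ∃ δ : ℝ, 0 < δ ∧ ∀ w : Fin n → ℚ, (∀ i, |((w i : ℚ) : ℝ) - bs x i| < δ) →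
      ∃ y : Fin (n + m) → ℚ, bs y = w ∧ 5 ≤ (atq A w).rank ∧
        (atq A w *ᵥ fb y ≠ 0 ∨ ∀ w', (atq A w').rank ≤ (atq A w).rank) ∧
        fb y ⬝ᵥ atq A w *ᵥ fb y = 0 ∧ ∀ j : Fin m, |((y (Fin.natAdd n j) : ℚ) : ℝ) -
          x (Fin.natAdd n j)| < ε := by
  have hv0 : (fb x : Fin (m + 1) → ℝ) 0 = 1 := by simp [fb]
  -- conversion of neighbourhoods
  have conv : ∀ P : (Fin n → ℝ) → Prop, (∀ᶠ b in 𝓝 (bs x : Fin n → ℝ), P b) →
      ∃ δ : ℝ, 0 < δ ∧ ∀ w : Fin n → ℚ, (∀ i, |((w i : ℚ) : ℝ) - bs x i| < δ) → P (rv w) := by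
    intro P hP
    obtain ⟨δ, hδ, h⟩ := Metric.eventually_nhds_iff_ball.1 hP
    refine ⟨δ, hδ, fun w hw => h _ ?_⟩
    rw [Metric.mem_ball, dist_pi_lt_iff hδ]
    intro i
    rw [Real.dist_eq]
    exact hw i
  have e1 : ∀ (b : Fin n → ℚ) (w : Fin (m + 1) → ℚ),
      bs (Fin.append b fun j => w j.succ) = b := by
    intro b w
    funext i
    simp [bs]
  have e2 : ∀ (b : Fin n → ℚ) (w : Fin (m + 1) → ℚ), w 0 = 1 →
      fb (Fin.append b fun j => w j.succ) = w := by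
    intro b w hw
    funext i
    refine Fin.cases ?_ (fun j => ?_) i
    · simp [fb, hw]
    · simp [fb]
  by_cases hMv : atr A (bs x) *ᵥ fb x = 0
  · -- maximal rank
    have hmax := hnd.resolve_left fun h => h hMv
    have h1 := lift ker_ (atr A (bs x)) (atr_symm hA _) (fb x) hv0 h0 (half_pos hε)
    have h2 := (atr_continuous A).continuousAt.eventually h1
    have h2' := (atr_continuous A).continuousAt.eventually (rank_open (atr A (bs x)) (le_refl _))
    obtain ⟨δ, hδ, h⟩ := conv _ (h2.and h2')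
    refine ⟨δ, hδ, fun w hw => ?_⟩
    obtain ⟨h3, h4⟩ := h w hw
    have h4' : (atr A (bs x)).rank ≤ (atr A (rv w)).rank := h4
    have h4'' : (atr A (rv w)).rank = (atq A w).rank := by
      rw [atr_rv, Pool.Agent.R847.QB.rank_map_eq]
    rw [h4''] at h4'
    obtain ⟨v', k1, k2, k3⟩ := h3 (by rw [h4'']; exact hmax w)
    rw [atr_rv] at k2
    obtain ⟨u, l1, l2, l3⟩ := fibre_dense Pool.Agent.R565.QR.deg' den_ (atq A w) (atq_symm hA w)
      (h5.trans h4') v' k1 k2 (half_pos hε)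
    refine ⟨Fin.append w fun j => u j.succ, e1 _ _, h5.trans h4', Or.inr fun w' => (hmax w').trans h4',
      ?_, fun j => ?_⟩
    · rw [e2 _ _ l1]; exact l2
    · have h6 := l3 j.succ
      have h7 := k3 j.succ
      have h8 : fb x j.succ = (x (Fin.natAdd n j) : ℝ) := by simp [fb]
      rw [h8] at h7
      simp only [Fin.append_right]
      calc |(u j.succ : ℝ) - x (Fin.natAdd n j)|
          ≤ |(u j.succ : ℝ) - v' j.succ| + |v' j.succ - x (Fin.natAdd n j)| := abs_sub_le _ _ _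
        _ < ε := by linarith
  · -- not a vertex
    have hcont : ContinuousAt (fun p : (Fin n → ℝ) × (Fin (m + 1) → ℝ) => atr A p.1 *ᵥ p.2)
        (bs x, fb x) := by
      have : Continuous fun p : (Fin n → ℝ) × (Fin (m + 1) → ℝ) => atr A p.1 *ᵥ p.2 :=
        ((atr_continuous A).comp continuous_fst).matrix_mulVec continuous_snd
      exact this.continuousAt
    have hne := hcont.eventually_ne hMv
    rw [nhds_prod_eq, Filter.eventually_prod_iff] at hne
    obtain ⟨P1, hP1, P2, hP2, hP⟩ := hne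
    obtain ⟨δ2, hδ2, hP2'⟩ := Metric.eventually_nhds_iff_ball.1 hP2
    set η := min ε δ2 with hη
    have hη0 : 0 < η := lt_min hε hδ2
    have h1 := lift' (atr A (bs x)) (atr_symm hA _) (fb x) hv0 h0 hMv (half_pos hη0)
    have h2 := (atr_continuous A).continuousAt.eventually h1
    have h2' := (atr_continuous A).continuousAt.eventually (rank_open (atr A (bs x)) h5)
    obtain ⟨δ, hδ, h⟩ := conv _ ((h2.and h2').and hP1)
    refine ⟨δ, hδ, fun w hw => ?_⟩
    obtain ⟨⟨⟨v', k1, k2, k3⟩, h4⟩, h5'⟩ := h w hw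
    have h4' : 5 ≤ (atr A (rv w)).rank := h4
    rw [atr_rv, Pool.Agent.R847.QB.rank_map_eq] at h4'
    have k2' : v' ⬝ᵥ atr A (rv w) *ᵥ v' = 0 := k2
    rw [atr_rv] at k2'
    obtain ⟨u, l1, l2, l3⟩ := fibre_dense Pool.Agent.R565.QR.deg' den_ (atq A w) (atq_symm hA w)
      h4' v' k1 k2' (half_pos hη0)
    have hclose : ∀ i, |(u i : ℝ) - fb x i| < η := by
      intro i
      have h6 := l3 i
      have h7 := k3 i
      calc |(u i : ℝ) - fb x i|
          ≤ |(u i : ℝ) - v' i| + |v' i - fb x i| := abs_sub_le _ _ _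
        _ < η := by linarith
    refine ⟨Fin.append w fun j => u j.succ, e1 _ _, h4', Or.inl ?_, ?_, fun j => ?_⟩
    · rw [e2 _ _ l1]
      intro hz
      have h9 := hP h5' (y := rv u) (hP2' _ (by
        rw [Metric.mem_ball, dist_pi_lt_iff hδ2]
        intro i
        rw [Real.dist_eq]
        exact (hclose i).trans_le (min_le_right _ _)))
      apply h9
      show atr A (rv w) *ᵥ rv u = 0
      rw [atr_rv, rv_mulVec, hz, rv_zero]
    · rw [e2 _ _ l1]; exact l2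
    · have h8 : fb x j.succ = (x (Fin.natAdd n j) : ℝ) := by simp [fb]
      have h9 := hclose j.succ
      rw [h8] at h9
      simp only [Fin.append_right]
      exact h9.trans_le (min_le_left _ _)

/-- the maximal rank at rational points -/
lemma exists_max (A : PM n m) : ∃ R : ℕ, (∀ w : Fin n → ℚ, (atq A w).rank ≤ R) ∧
    ∃ w : Fin n → ℚ, (atq A w).rank = R := by
  have hb : ∃ R, R ∈ Set.range fun w : Fin n → ℚ => (atq A w).rank := ⟨_, 0, rfl⟩
  have hbd : BddAbove (Set.range fun w : Fin n → ℚ => (atq A w).rank) :=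
    ⟨m + 1, by rintro _ ⟨w, rfl⟩; exact rank_le A w⟩
  obtain ⟨w, hw⟩ := Nat.sSup_mem hb hbd
  exact ⟨_, fun w => le_csSup hbd ⟨w, rfl⟩, w, hw⟩

/-- the real nondegenerate points over a semialgebraic set -/
theorem real_SA {A : PM n m} {X : Set (Fin n → ℝ)} (hX : SA X) :
    SA {x : Fin (n + m) → ℝ | bs x ∈ X ∧ 5 ≤ (atr A (bs x)).rank ∧
      (atr A (bs x) *ᵥ fb x ≠ 0 ∨ ∀ w : Fin n → ℚ, (atq A w).rank ≤ (atr A (bs x)).rank) ∧
      fb x ⬝ᵥ atr A (bs x) *ᵥ fb x = 0} := by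
  refine SAP.and ?_ (SAP.and (sap_rank A 5) (SAP.and (SAP.or ?_ ?_) (sap_quad A)))
  · exact SAP.preimage (p := fun v => v ∈ X) hX (fun i => PF.coord _)
  · have h1 : SAP fun x : Fin (n + m) → ℝ => ∀ i, (atr A (bs x) *ᵥ fb x) i = 0 := by
      refine SAP.forall_fin fun i => SAP.eq_zero ?_
      simp only [mulVec, dotProduct]
      exact PF.sum _ fun j _ => PF.mul
        (pf_atr A i j (φ := fun x : Fin (n + m) → ℝ => bs x) fun k => PF.coord _) (pf_fb j)
    refine SAP.congr h1.not fun x => ?_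
    rw [ne_eq, funext_iff]
    rfl
  · obtain ⟨R, hR1, w₀, hR2⟩ := exists_max A
    refine SAP.congr (sap_rank A R) fun x => ?_
    constructor
    · intro h
      rw [← hR2]
      exact h w₀
    · intro h w
      exact (hR1 w).trans h

/-- a semialgebraic subset of the line does not have the integers as its rational points -/
theorem line_ne {V : Set (Fin 1 → ℝ)} (hV : SA V) :
    {t : ℚ | (fun _ => (t : ℝ)) ∈ V} ≠ Set.range ((↑) : ℤ → ℚ) := by
  intro heq
  have h1 := (Pool.Agent.TH729.CC.line_SA hV).1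
  set W : Set ℝ := {t : ℝ | (fun _ => t) ∈ V} with hW
  by_cases hint : (interior W).Nonempty
  · obtain ⟨s, hs⟩ := hint
    have ho : IsOpen (interior W \ Set.range ((↑) : ℤ → ℝ)) :=
      isOpen_interior.sdiff Int.isClosedEmbedding_coe_real.isClosed_range
    have hne : (interior W \ Set.range ((↑) : ℤ → ℝ)).Nonempty := by
      by_contra hcon
      have hsub : interior W ⊆ Set.range ((↑) : ℤ → ℝ) := by
        intro x hx
        by_contra h
        exact hcon ⟨x, hx, h⟩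
      have hc : (interior W).Countable := (Set.countable_range _).mono hsub
      have h2 : interior W = ∅ := by
        have h3 := hc.dense_compl ℝ
        rw [← interior_eq_empty_iff_dense_compl, interior_interior] at h3
        exact h3
      rw [h2] at hs
      exact hs
    obtain ⟨t, ht⟩ := Rat.denseRange_cast.exists_mem_open ho hne
    have h2' : (t : ℝ) ∈ W := interior_subset ht.1
    have h2 : t ∈ {t : ℚ | (fun _ => (t : ℝ)) ∈ V} := h2'
    rw [heq] at h2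
    obtain ⟨z, hz⟩ := h2
    exact ht.2 ⟨z, by rw [← hz]; simp⟩
  · rw [Set.not_nonempty_iff_eq_empty] at hint
    have hf : W.Finite := by
      refine h1.subset fun t ht => ⟨subset_closure ht, fun h2 => ?_⟩
      rw [hint] at h2
      exact h2
    have h3 : (Set.range ((↑) : ℤ → ℝ)).Finite := by
      refine hf.subset ?_
      rintro _ ⟨z, rfl⟩
      have h4 : ((z : ℤ) : ℚ) ∈ {t : ℚ | (fun _ => (t : ℝ)) ∈ V} := by
        rw [heq]
        exact ⟨z, rfl⟩
      have h5 : (fun _ : Fin 1 => (((z : ℤ) : ℚ) : ℝ)) ∈ V := h4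
      rw [hW]
      simpa using h5
    exact Set.infinite_range_of_injective Int.cast_injective h3

end Pool.Agent.Helper14K9.ZT
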