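import Pool.Agent.Helper14K9.ZT.HDefs
import Pool.Agent.Helper14K9.ZT.Step

/-!
# Triangular systems with prescribed free variables (helper14)
-/

set_option autoImplicit false

namespace Pool.Agent.Helper14K9.ZT.HT

open Matrix Topology Filter MvPolynomial Pool.Agent.TH729.SQ Pool.Agent.H581R2 Pool.Agent.R847.QB

/-- the nondegenerate real solutions of a triangular system -/
theorem exists_real {k n : ℕ} {N : Set (Fin n → ℚ)} {ι : Fin k → Fin n} (T : Triangular k n N ι) :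
    ∃ R : Set (Fin n → ℝ), SA R ∧ (∀ x ∈ N, (fun i => ((x i : ℚ) : ℝ)) ∈ R) ∧
      ∀ x ∈ R, ∀ ε : ℝ, 0 < ε → ∃ δ : ℝ, 0 < δ ∧ ∀ u : Fin k → ℚ,
        (∀ i, |((u i : ℚ) : ℝ) - x (ι i)| < δ) →
        ∃ y ∈ N, (∀ i, y (ι i) = u i) ∧ ∀ i, |((y i : ℚ) : ℝ) - x i| < ε := by
  induction T with
  | free =>
    refine ⟨Set.univ, SA.univ, fun x _ => Set.mem_univ _, fun x _ ε hε => ⟨ε, hε, fun u hu =>
      ⟨u, Set.mem_univ _, fun i => rfl, hu⟩⟩⟩
  | @step n N ι m A hA T ih =>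
    obtain ⟨R, hR1, hR2, hR3⟩ := ih
    refine ⟨{x : Fin (n + m) → ℝ | bs x ∈ R ∧ 5 ≤ (atr A (bs x)).rank ∧
      (atr A (bs x) *ᵥ fb x ≠ 0 ∨ ∀ w : Fin n → ℚ, (atq A w).rank ≤ (atr A (bs x)).rank) ∧
      fb x ⬝ᵥ atr A (bs x) *ᵥ fb x = 0}, real_SA (A := A) hR1, ?_, ?_⟩
    · rintro x ⟨h1, h2, h3, h4⟩
      have e1 : atr A (rv (base x)) = (atq A (base x)).map (algebraMap ℚ ℝ) :=
        atr_rv A (base x)
      have e2 : (atr A (rv (base x))).rank = (atq A (base x)).rank := by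
        rw [e1, Pool.Agent.R847.QB.rank_map_eq]
      have e3 : atr A (rv (base x)) *ᵥ fb (rv x) = rv (atq A (base x) *ᵥ fb x) := by
        rw [e1, fb_rv, rv_mulVec]
      refine ⟨hR2 _ h1, ?_, ?_, ?_⟩
      · show 5 ≤ (atr A (rv (base x))).rank
        rw [e2]
        exact h2
      · rcases h3 with h3 | h3
        · left
          show atr A (rv (base x)) *ᵥ fb (rv x) ≠ 0
          rw [e3]
          intro h0
          apply h3
          apply rv_inj
          exact h0.trans rv_zero.symm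
        · right
          intro w
          show _ ≤ (atr A (rv (base x))).rank
          rw [e2]
          exact h3 w
      · show fb (rv x) ⬝ᵥ atr A (rv (base x)) *ᵥ fb (rv x) = 0
        rw [e3, fb_rv, rv_dot]
        have h5 : fb x ⬝ᵥ atq A (base x) *ᵥ fb x = 0 := h4
        rw [h5, Rat.cast_zero]
    · rintro x ⟨h1, h2, h3, h4⟩ ε hε
      obtain ⟨δ₁, hδ₁, h5⟩ := step_lift hA x h2 h3 h4 hε
      obtain ⟨δ, hδ, h6⟩ := hR3 (bs x) h1 (min δ₁ ε) (lt_min hδ₁ hε)
      refine ⟨δ, hδ, fun u hu => ?_⟩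
      obtain ⟨w, hw, hwu, hwx⟩ := h6 u hu
      obtain ⟨y, hy1, hy2, hy3, hy4, hy5⟩ := h5 w fun i => (hwx i).trans_le (min_le_left _ _)
      have hy1' : base y = w := hy1
      subst hy1'
      refine ⟨y, ⟨hw, hy2, hy3, hy4⟩, hwu, fun i => ?_⟩
      refine Fin.addCases (fun i => ?_) (fun j => ?_) i
      · exact (hwx i).trans_le (min_le_right _ _)
      · exact hy5 j

/-- evaluations of the families are polynomial functions -/
lemma pf_poly {ι : Type} {τ : (ι → ℝ) → ℝ} (hτ : PF τ) (a : Polynomial ℚ) :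
    PF fun v => (Polynomial.aeval (τ v) a : ℝ) := by
  induction a using Polynomial.induction_on' with
  | add p q hp hq =>
    simp only [map_add]
    exact hp.add hq
  | monomial n c =>
    simp only [Polynomial.aeval_monomial]
    exact (PF.const c).mul (hτ.pow n)

lemma pf_ev {ι : Type} {τ : (ι → ℝ) → ℝ} (hτ : PF τ) {d : ℕ} {y : (ι → ℝ) → Fin d → ℝ}
    (hy : ∀ i, PF fun v => y v i) (F : MvPolynomial (Fin d) (Polynomial ℚ)) :
    PF fun v => MvPolynomial.eval₂ ((Polynomial.aeval (τ v) : Polynomial ℚ →ₐ[ℚ] ℝ) :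
      Polynomial ℚ →+* ℝ) (y v) F := by
  induction F using MvPolynomial.induction_on with
  | C a =>
    simp only [eval₂_C]
    exact pf_poly hτ a
  | add p q hp hq =>
    simp only [eval₂_add]
    exact hp.add hq
  | mul_X p i hp =>
    simp only [eval₂_mul, eval₂_X]
    exact hp.mul (hy i)

lemma sap_point {ι : Type} {τ : (ι → ℝ) → ℝ} (hτ : PF τ) {d r : ℕ} {y : (ι → ℝ) → Fin d → ℝ}
    (hy : ∀ i, PF fun v => y v i) (F : Fin r → MvPolynomial (Fin d) (Polynomial ℚ)) :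
    SAP fun v => Point F (τ v) (y v) := by
  refine SAP.and ?_ (SAP.forall_fin fun j => SAP.eq_zero (pf_ev hτ hy (F j)))
  refine SAP.congr (SAP.forall_fin fun i => SAP.eq_zero (hy i)).not fun v => ?_
  rw [ne_eq, funext_iff]
  rfl

lemma point_cast {d r : ℕ} {F : Fin r → MvPolynomial (Fin d) (Polynomial ℚ)} {t : ℚ}
    {y : Fin d → ℚ} (h : Point F t y) : Point F (t : ℝ) fun i => (y i : ℝ) := by
  refine ⟨fun hz => h.1 ?_, fun j => ?_⟩
  · funext i
    have := congrFun hz i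
    simpa using this
  · have h1 := congrArg (algebraMap ℚ ℝ) (h.2 j)
    rw [map_zero, MvPolynomial.eval₂_comp_left] at h1
    have h2 := Pool.Agent.TH766.HP.comp_ev (algebraMap ℚ ℝ) t
    unfold Pool.Agent.TH766.HP.ev at h2
    rw [h2] at h1
    exact h1

end Pool.Agent.Helper14K9.ZT.HT
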