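import Pool.Agent.R847.QB.Clo
import Pool.Agent.R565.QR.Fam
import Pool.Agent.Y718.IsoZ

/-!
# Operations which preserve semialgebraic closures of sets of rational points (helper14)
-/

set_option autoImplicit false

namespace Pool.Agent.Helper14K9.ZT

open Matrix Topology Filter MvPolynomial Pool.Agent.TH729.SQ Pool.Agent.H581R2 Pool.Agent.R847.QB

variable {n m k : ℕ}

/-- the closure is semialgebraic -/
def Tm {n : ℕ} (S : Set (Fin n → ℚ)) : Prop := SA (closure (rl S))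

lemma rl_rv {n : ℕ} (S : Set (Fin n → ℚ)) : rl S = rv '' S := by
  ext x
  constructor
  · rintro ⟨y, hy, rfl⟩
    exact ⟨y, hy, rfl⟩
  · rintro ⟨y, hy, rfl⟩
    exact ⟨y, hy, rfl⟩

lemma Tm.sandwich {n : ℕ} {S : Set (Fin n → ℚ)} {E : Set (Fin n → ℝ)} (hE : SA E)
    (h1 : rl S ⊆ E) (h2 : E ⊆ closure (rl S)) : Tm S := by
  have h : closure (rl S) = closure E :=
    subset_antisymm (closure_mono h1) (closure_minimal h2 isClosed_closure)
  unfold Tm
  rw [h]
  exact SA.closure hE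

lemma Tm.union {n : ℕ} {S T : Set (Fin n → ℚ)} (hS : Tm S) (hT : Tm T) : Tm (S ∪ T) := by
  have h : rl (S ∪ T) = rl S ∪ rl T := by
    rw [rl_rv, rl_rv, rl_rv, Set.image_union]
  unfold Tm
  rw [h, closure_union]
  exact SA.union hS hT

lemma Tm.inter_open {n : ℕ} {S : Set (Fin n → ℚ)} (hS : Tm S) {U : Set (Fin n → ℝ)}
    (hU : IsOpen U) (hUS : SA U) : Tm {x | x ∈ S ∧ rv x ∈ U} := by
  refine Tm.sandwich (SA.inter hS hUS) ?_ ?_
  · rintro _ ⟨x, ⟨hx, hxU⟩, rfl⟩
    exact ⟨subset_closure ⟨x, hx, rfl⟩, hxU⟩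
  · rintro x ⟨hx, hxU⟩
    have h := hU.inter_closure ⟨hxU, hx⟩
    refine closure_mono ?_ h
    rintro _ ⟨h1, y, hy, rfl⟩
    exact ⟨y, ⟨hy, h1⟩, rfl⟩

lemma Tm.pos {n : ℕ} {S : Set (Fin n → ℚ)} (hS : Tm S) (g : MvPolynomial (Fin n) ℚ) :
    Tm {x | x ∈ S ∧ 0 < eval x g} := by
  have h := hS.inter_open (U := {x | (0 : ℝ) < aeval x g})
    (isOpen_lt continuous_const (aeval_continuous g)) (SAP.pos (PF.aeval g))
  have e : {x : Fin n → ℚ | x ∈ S ∧ rv x ∈ {x | (0 : ℝ) < aeval x g}} =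
      {x | x ∈ S ∧ 0 < eval x g} := by
    ext x
    refine and_congr_right fun _ => ?_
    show (0 : ℝ) < aeval (rv x) g ↔ _
    have h2 : (aeval (rv x) g : ℝ) = ((eval x g : ℚ) : ℝ) := aeval_cast x g
    rw [h2]
    exact_mod_cast Iff.rfl
  rwa [e] at h

lemma Tm.prod {S : Set (Fin n → ℚ)} {T : Set (Fin m → ℚ)} (hS : Tm S) (hT : Tm T) :
    Tm {x : Fin (n + m) → ℚ | (fun i => x (Fin.castAdd m i)) ∈ S ∧
      (fun j => x (Fin.natAdd n j)) ∈ T} := by
  refine Tm.sandwich (E := {x : Fin (n + m) → ℝ | (fun i => x (Fin.castAdd m i)) ∈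
    closure (rl S) ∧ (fun j => x (Fin.natAdd n j)) ∈ closure (rl T)}) ?_ ?_ ?_
  · refine SAP.and ?_ ?_
    · exact SAP.preimage (p := fun v => v ∈ closure (rl S)) hS (fun i => PF.coord _)
    · exact SAP.preimage (p := fun v => v ∈ closure (rl T)) hT (fun i => PF.coord _)
  · rintro _ ⟨x, ⟨h1, h2⟩, rfl⟩
    exact ⟨subset_closure ⟨_, h1, rfl⟩, subset_closure ⟨_, h2, rfl⟩⟩
  · rintro x ⟨h1, h2⟩
    rw [Metric.mem_closure_iff] at h1 h2 ⊢
    intro ε hε
    obtain ⟨_, ⟨a, ha, rfl⟩, h3⟩ := h1 ε hε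
    obtain ⟨_, ⟨b, hb, rfl⟩, h4⟩ := h2 ε hε
    rw [dist_pi_lt_iff hε] at h3 h4
    refine ⟨fun i => ((Fin.append a b i : ℚ) : ℝ), ⟨Fin.append a b, ⟨?_, ?_⟩, rfl⟩, ?_⟩
    · have : (fun i => Fin.append a b (Fin.castAdd m i)) = a := by
        funext i; simp
      rw [this]; exact ha
    · have : (fun j => Fin.append a b (Fin.natAdd n j)) = b := by
        funext i; simp
      rw [this]; exact hb
    · rw [dist_pi_lt_iff hε]
      intro i
      refine Fin.addCases (fun i => ?_) (fun j => ?_) i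
      · simpa using h3 i
      · simpa using h4 j

lemma Tm.values {S : Set (Fin n → ℚ)} (hS : Tm S) (p : Fin m → MvPolynomial (Fin n) ℚ)
    (q : MvPolynomial (Fin n) ℚ) :
    Tm {y : Fin m → ℚ | ∃ x ∈ S, eval x q ≠ 0 ∧ ∀ k, y k = eval x (p k) / eval x q} := by
  refine Tm.sandwich (SA.image_rat hS p q) ?_ ?_
  · rintro _ ⟨y, ⟨x, hx, hxq, hxy⟩, rfl⟩
    refine ⟨rv x, subset_closure ⟨x, hx, rfl⟩, ?_, fun k => ?_⟩
    · have h2 : (aeval (rv x) q : ℝ) = ((eval x q : ℚ) : ℝ) := aeval_cast x q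
      rw [h2]
      exact_mod_cast hxq
    · have h2 : (aeval (rv x) q : ℝ) = ((eval x q : ℚ) : ℝ) := aeval_cast x q
      have h3 : (aeval (rv x) (p k) : ℝ) = ((eval x (p k) : ℚ) : ℝ) := aeval_cast x (p k)
      show ((y k : ℚ) : ℝ) = _
      rw [h2, h3, hxy k]
      push_cast
      rfl
  · rintro y ⟨x, hx, hxq, hxy⟩
    set g : (Fin n → ℝ) → Fin m → ℝ := fun x k => aeval x (p k) / aeval x q with hg
    have hgc : ContinuousAt g x := by
      refine continuousAt_pi.2 fun k => ?_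
      exact ((aeval_continuous (p k)).continuousAt).div ((aeval_continuous q).continuousAt) hxq
    have hgx : g x = y := by
      funext k
      exact (hxy k).symm
    have hU : IsOpen {x : Fin n → ℝ | (aeval x q : ℝ) ≠ 0} :=
      isOpen_ne_fun (aeval_continuous q) continuous_const
    have h1 := hU.inter_closure ⟨hxq, hx⟩
    have h2 : g x ∈ closure (g '' ({x : Fin n → ℝ | (aeval x q : ℝ) ≠ 0} ∩ rl S)) :=
      hgc.continuousWithinAt.mem_closure_image h1
    rw [hgx] at h2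
    refine closure_mono ?_ h2
    rintro _ ⟨_, ⟨h3, z, hz, rfl⟩, rfl⟩
    have h4 : (aeval (rv z) q : ℝ) = ((eval z q : ℚ) : ℝ) := aeval_cast z q
    have h3' : (aeval (rv z) q : ℝ) ≠ 0 := h3
    refine ⟨fun k => eval z (p k) / eval z q, ⟨z, hz, ?_, fun k => rfl⟩, ?_⟩
    · intro h0
      apply h3'
      rw [h4, h0, Rat.cast_zero]
    · funext k
      have h5 : (aeval (rv z) (p k) : ℝ) = ((eval z (p k) : ℚ) : ℝ) := aeval_cast z (p k)
      show (aeval (rv z) (p k) : ℝ) / aeval (rv z) q = _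
      rw [h4, h5]
      push_cast
      rfl

/-! ### Fibrations -/

lemma strict {τ : Type} [Fintype τ] (p : MvPolynomial τ ℚ) (x : τ → ℝ) :
    HasStrictFDerivAt (fun x : τ → ℝ => (aeval x p : ℝ))
      (∑ i, (aeval x (pderiv i p) : ℝ) • (ContinuousLinearMap.proj i : (τ → ℝ) →L[ℝ] ℝ)) x := by
  classical
  induction p using MvPolynomial.induction_on with
  | C a =>
    simp only [algHom_C, pderiv_C, map_zero, zero_smul, Finset.sum_const_zero]
    exact hasStrictFDerivAt_const _ _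
  | add p q hp hq =>
    have h := hp.add hq
    simp only [map_add, add_smul, Finset.sum_add_distrib]
    exact h
  | mul_X p i hp =>
    have h := hp.mul ((ContinuousLinearMap.proj i : (τ → ℝ) →L[ℝ] ℝ).hasStrictFDerivAt (x := x))
    have e : (fun x : τ → ℝ => (aeval x (p * X i) : ℝ)) =
        fun x : τ → ℝ => (aeval x p : ℝ) * (ContinuousLinearMap.proj i : (τ → ℝ) →L[ℝ] ℝ) x := by
      funext y
      simp
    rw [e]
    refine h.congr_fderiv ?_
    ext v
    simp only [ContinuousLinearMap.add_apply, ContinuousLinearMap.smul_apply, smul_eq_mul,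
      ContinuousLinearMap.sum_apply, ContinuousLinearMap.proj_apply, Derivation.leibniz, map_add,
      map_mul, aeval_X, pderiv_X, add_mul, Finset.sum_add_distrib, Pi.single_apply, Finset.mul_sum]
    congr 1
    · rw [Finset.sum_eq_single i]
      · simp
      · intro j _ hj
        rw [if_neg (Ne.symm hj)]
        simp
      · simp
    · refine Finset.sum_congr rfl fun j _ => ?_
      ring

end Pool.Agent.Helper14K9.ZT
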